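import Pool.Agent.Helper26.RP.Goals

/-!
# MP_105b7b_pr: packet BIN
-/

noncomputable section

namespace RP.PkBIN

theorem exp_le_of_pos {y : ℝ} (hy : 0 < y) : Real.exp (1 - 1 / y) ≤ y := by
  have h := Real.one_sub_inv_le_log_of_pos hy
  calc Real.exp (1 - 1 / y) ≤ Real.exp (Real.log y) := by
        rw [Real.exp_le_exp, one_div]
        exact h
    _ = y := Real.exp_log hy

theorem bin : G_MOD → G_BIN := by
  intro hmod θ hθ0 hθ1 ε hε
  have hθ2 : 0 < 1 - θ := by linarith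
  have hp : 0 < θ * (1 - θ) := mul_pos hθ0 hθ2
  refine ⟨min 1 (ε * (θ * (1 - θ)) / 2), lt_min one_pos (by positivity),
    ⌈8 / ε ^ 2⌉₊ + 1, ?_⟩
  intro a b ha hb hab
  set η := min 1 (ε * (θ * (1 - θ)) / 2) with hη
  have hη0 : 0 < η := lt_min one_pos (by positivity)
  have hη1 : η ≤ 1 := min_le_left _ _
  have hη2 : η ≤ ε * (θ * (1 - θ)) / 2 := min_le_right _ _
  have ha1 : 1 ≤ a := le_trans (by omega) ha
  have hb1 : 1 ≤ b := le_trans (by omega) hb
  have haR : (0 : ℝ) < a := by exact_mod_cast ha1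
  have hbR : (0 : ℝ) < b := by exact_mod_cast hb1
  set N : ℝ := (a : ℝ) + b with hN
  have hN0 : 0 < N := by positivity
  -- size of N
  have hNbig : 8 / ε ^ 2 ≤ N := by
    have h1 : 8 / ε ^ 2 ≤ (⌈8 / ε ^ 2⌉₊ : ℝ) := Nat.le_ceil _
    have h2 : ((⌈8 / ε ^ 2⌉₊ + 1 : ℕ) : ℝ) ≤ a := by exact_mod_cast ha
    push_cast at h2
    linarith
  have hN1 : N + 1 ≤ Real.exp (ε * N / 2) := by
    have h1 := Real.quadratic_le_exp_of_nonneg (show 0 ≤ ε * N / 2 by positivity)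
    have h2 : N ≤ (ε * N / 2) ^ 2 / 2 := by
      have h3 : 8 ≤ ε ^ 2 * N := by
        rw [div_le_iff₀ (by positivity)] at hNbig
        linarith
      have : (ε * N / 2) ^ 2 / 2 = (ε ^ 2 * N) * N / 8 := by ring
      rw [this]
      nlinarith
    have h4 : 0 ≤ ε * N / 2 := by positivity
    linarith
  -- the two factors
  have hy1 : 0 < θ * N / a := by positivity
  have hy2 : 0 < (1 - θ) * N / b := by positivity
  have e1 := pow_le_pow_left₀ (Real.exp_pos _).le (exp_le_of_pos hy1) a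
  have e2 := pow_le_pow_left₀ (Real.exp_pos _).le (exp_le_of_pos hy2) b
  rw [← Real.exp_nat_mul] at e1 e2
  have hmain : Real.exp (a * (1 - 1 / (θ * N / a)) + b * (1 - 1 / ((1 - θ) * N / b))) ≤
      (θ * N / a) ^ a * ((1 - θ) * N / b) ^ b := by
    rw [Real.exp_add]
    exact mul_le_mul e1 e2 (Real.exp_pos _).le (by positivity)
  have hexp : -(ε * N / 2) ≤ a * (1 - 1 / (θ * N / a)) + b * (1 - 1 / ((1 - θ) * N / b)) := by
    have hs : ((a : ℝ) - θ * N) ^ 2 ≤ (η * N) ^ 2 := by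
      rw [← sq_abs ((a : ℝ) - θ * N)]
      exact pow_le_pow_left₀ (abs_nonneg _) hab 2
    have hid : (a : ℝ) * (1 - 1 / (θ * N / a)) + b * (1 - 1 / ((1 - θ) * N / b)) =
        -(((a : ℝ) - θ * N) ^ 2 / (θ * (1 - θ) * N)) := by
      have hb' : (b : ℝ) = N - a := by rw [hN]; ring
      have hbne : N - (a : ℝ) ≠ 0 := by rw [← hb']; exact hbR.ne'
      rw [hb']
      field_simp
      ring
    rw [hid, neg_le_neg_iff, div_le_iff₀ (by positivity)]
    calc ((a : ℝ) - θ * N) ^ 2 ≤ (η * N) ^ 2 := hs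
      _ = η ^ 2 * N ^ 2 := by ring
      _ ≤ (ε * (θ * (1 - θ)) / 2) * N ^ 2 := by
        apply mul_le_mul_of_nonneg_right _ (by positivity)
        nlinarith
      _ = ε * N / 2 * (θ * (1 - θ) * N) := by ring
  -- MOD
  have hm : N ^ (a + b) ≤ (N + 1) * (((a + b).choose a : ℝ) * (a : ℝ) ^ a * (b : ℝ) ^ b) := by
    have := hmod a b
    have h2 : (((a + b) ^ (a + b) : ℕ) : ℝ) ≤
        (((a + b + 1) * ((a + b).choose a * a ^ a * b ^ b) : ℕ) : ℝ) := by exact_mod_cast this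
    push_cast at h2
    exact h2
  have hfac : (θ * N / a) ^ a * ((1 - θ) * N / b) ^ b * ((a : ℝ) ^ a * (b : ℝ) ^ b) =
      θ ^ a * (1 - θ) ^ b * N ^ (a + b) := by
    rw [div_pow, div_pow, mul_pow, mul_pow, pow_add]
    field_simp
  have hab0 : 0 < (a : ℝ) ^ a * (b : ℝ) ^ b := by positivity
  have hle : (θ * N / a) ^ a * ((1 - θ) * N / b) ^ b ≤
      (N + 1) * (((a + b).choose a : ℝ) * θ ^ a * (1 - θ) ^ b) := by
    have h1 : (θ * N / a) ^ a * ((1 - θ) * N / b) ^ b * ((a : ℝ) ^ a * (b : ℝ) ^ b) ≤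
        (N + 1) * (((a + b).choose a : ℝ) * θ ^ a * (1 - θ) ^ b) *
          ((a : ℝ) ^ a * (b : ℝ) ^ b) := by
      rw [hfac]
      calc θ ^ a * (1 - θ) ^ b * N ^ (a + b) ≤ θ ^ a * (1 - θ) ^ b *
            ((N + 1) * (((a + b).choose a : ℝ) * (a : ℝ) ^ a * (b : ℝ) ^ b)) :=
            mul_le_mul_of_nonneg_left hm (by positivity)
        _ = _ := by ring
    exact le_of_mul_le_mul_right h1 hab0
  have hC0 : 0 ≤ ((a + b).choose a : ℝ) * θ ^ a * (1 - θ) ^ b := by positivity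
  have hfin : Real.exp (-(ε * N / 2)) ≤
      Real.exp (ε * N / 2) * (((a + b).choose a : ℝ) * θ ^ a * (1 - θ) ^ b) :=
    calc Real.exp (-(ε * N / 2)) ≤ _ := Real.exp_le_exp.2 hexp
      _ ≤ _ := hmain
      _ ≤ _ := hle
      _ ≤ _ := mul_le_mul_of_nonneg_right hN1 hC0
  have h5 : Real.exp (-ε * N) = Real.exp (-(ε * N / 2)) * Real.exp (-(ε * N / 2)) := by
    rw [← Real.exp_add]
    congr 1
    ring
  rw [h5]
  calc Real.exp (-(ε * N / 2)) * Real.exp (-(ε * N / 2)) ≤ Real.exp (-(ε * N / 2)) *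
        (Real.exp (ε * N / 2) * (((a + b).choose a : ℝ) * θ ^ a * (1 - θ) ^ b)) :=
        mul_le_mul_of_nonneg_left hfin (Real.exp_pos _).le
    _ = (Real.exp (-(ε * N / 2)) * Real.exp (ε * N / 2)) *
        (((a + b).choose a : ℝ) * θ ^ a * (1 - θ) ^ b) := by ring
    _ = _ := by rw [← Real.exp_add, neg_add_cancel, Real.exp_zero, one_mul]

end RP.PkBIN
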