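import Mathlib

/-!
# MP_105b7b_pr: the growth constant of the random simple polygon (definitions)
-/

noncomputable section

namespace RP

open MeasureTheory

/-- The plane. -/
abbrev E : Type := ℝ × ℝ

/-! ## The polygon, as in the problem file -/

/-- The edge of the closed polygon through `x 0, ..., x (n - 1)` from `x i` to the next point (the
next point of `x (n - 1)` is `x 0`). -/
def edge {n : ℕ} (x : Fin n → ℝ × ℝ) (i : Fin n) : Set (ℝ × ℝ) :=
  segment ℝ (x i) (x (finRotate n i))

open Classical in
/-- The closed polygon is simple: two different edges are disjoint, except that adjacent edges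
have exactly their common endpoint in common. -/
def IsSimple {n : ℕ} (x : Fin n → ℝ × ℝ) : Prop :=
  ∀ i j : Fin n, i ≠ j → edge x i ∩ edge x j =
    (if j = finRotate n i then {x j} else ∅) ∪ (if i = finRotate n j then {x i} else ∅)

/-- The probability that the closed polygon through `n` independent uniformly distributed random
points of `K` (in this order) is simple. -/
def simpleProb (n : ℕ) (K : Set (ℝ × ℝ)) : ℝ :=
  (Measure.pi fun _ : Fin n => ProbabilityTheory.cond (volume : Measure (ℝ × ℝ)) K).real
    {x | IsSimple x}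

/-! ## Working definitions -/

/-- Twice the signed area of the triangle `a b c`. -/
def orient (a b c : E) : ℝ := (b.1 - a.1) * (c.2 - a.2) - (b.2 - a.2) * (c.1 - a.1)

/-- The segments `ab` and `cd` have a common endpoint or are disjoint. -/
def NX (a b c d : E) : Prop :=
  (a = c ∨ a = d ∨ b = c ∨ b = d) ∨ Disjoint (segment ℝ a b) (segment ℝ c d)

/-- No three points are collinear. -/
def GP {ι : Type*} (x : ι → E) : Prop :=
  ∀ i j k : ι, i ≠ j → j ≠ k → i ≠ k → orient (x i) (x j) (x k) ≠ 0

/-- The edges `x i, x (S i)` are pairwise disjoint or have a common endpoint. -/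
def Cl {ι : Type*} (S : ι → ι) (x : ι → E) : Prop :=
  GP x ∧ ∀ i j, NX (x i) (x (S i)) (x j) (x (S j))

/-- The volume of the set of all simple closed polygons with `n` vertices in `U`. -/
def vc (n : ℕ) (U : Set E) : ENNReal :=
  volume {x : Fin n → E | (∀ i, x i ∈ U) ∧ Cl (finRotate n) x}

def vr (n : ℕ) (U : Set E) : ℝ := (vc n U).toReal

/-- The area. -/
def ar (U : Set E) : ℝ := (volume U).toReal

/-- The expected number of orders of `n` random points of `K` with a simple polygon. -/
def w (n : ℕ) (K : Set E) : ℝ := (n.factorial : ℝ) * vr n K / ar K ^ n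

/-- Convex bodies. -/
structure Body (K : Set E) : Prop where
  conv : Convex ℝ K
  cpt : IsCompact K
  int : (interior K).Nonempty

/-- The lower growth rate is at least `g`. -/
def LB (K : Set E) (g : ℝ) : Prop :=
  ∀ ε : ℝ, 0 < ε → ∀ᶠ n : ℕ in Filter.atTop, Real.exp ((g - ε) * n) ≤ w n K

/-- The upper growth rate is at most `g`. -/
def UB (K : Set E) (g : ℝ) : Prop :=
  ∀ ε : ℝ, 0 < ε → ∀ᶠ n : ℕ in Filter.atTop, w n K ≤ Real.exp ((g + ε) * n)

/-- The half-plane `α x + β y ≤ γ`. -/
def HL (α β γ : ℝ) : Set E := {p | α * p.1 + β * p.2 ≤ γ}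

/-- The half-plane `γ ≤ α x + β y`. -/
def HR (α β γ : ℝ) : Set E := {p | γ ≤ α * p.1 + β * p.2}

/-- Triangles. -/
def tri (p q r : E) : Set E := convexHull ℝ {p, q, r}

/-- The standard triangle. -/
def T0 : Set E := tri (0, 0) (1, 0) (0, 1)

/-- The square with centre `(c1, c2)` and side length `2 r`. -/
def bx (c1 c2 r : ℝ) : Set E := {p | |p.1 - c1| ≤ r ∧ |p.2 - c2| ≤ r}

/-- The reflection. -/
def rf (p : E) : E := (-p.1, p.2)

/-- Simple open paths. -/
def Pa {m : ℕ} (u : Fin (m + 1) → E) : Prop :=
  ∀ i j : Fin m, NX (u i.castSucc) (u i.succ) (u j.castSucc) (u j.succ)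

/-- The strand from `v1` to `s1` is below the strand from `v2` to `s2` (both go to the right). -/
def Low (v1 s1 v2 s2 : E) : Prop :=
  (s1.1 ≤ s2.1 ∧ orient v2 s2 s1 < 0) ∨ (s2.1 ≤ s1.1 ∧ 0 < orient v1 s1 s2)

/-- Simple open paths with endpoints in `W` and the `a` inner vertices in `U`; the first strand is
below the last one. -/
def Blk (W U : Set E) (a : ℕ) : Set (Fin (a + 2) → E) :=
  {u | u 0 ∈ W ∧ u (Fin.last (a + 1)) ∈ W ∧ (∀ i : Fin a, u i.succ.castSucc ∈ U) ∧
    Pa (m := a + 1) u ∧ Low (u 1) (u 0) (u (Fin.last a).castSucc) (u (Fin.last (a + 1)))}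

/-- `s` sees the first and the last vertex of the closed polygon `x`. -/
def Vis {a : ℕ} (s : E) (x : Fin a → E) : Prop :=
  ∀ i j : Fin a, (i.val = 0 ∨ i.val + 1 = a) → NX s (x i) (x j) (x (finRotate a j))

/-- Closed polygons in `U` whose last edge is seen from two points of `W`. -/
def D2 (W U : Set E) (a : ℕ) : Set (E × E × (Fin a → E)) :=
  {z | z.1 ∈ W ∧ z.2.1 ∈ W ∧ (∀ i, z.2.2 i ∈ U) ∧ Cl (finRotate a) z.2.2 ∧
    Vis z.1 z.2.2 ∧ Vis z.2.1 z.2.2}

/-- The index type of the joined polygon. -/
abbrev J (a b : ℕ) : Type := (Fin (a + 2) ⊕ Fin (b + 2)) ⊕ Fin 2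

/-- The successor in the joined polygon: the left path, the first extra point, the right path, the
second extra point. -/
def succJ (a b : ℕ) : J a b → J a b
  | .inl (.inl i) => if h : i.val < a + 1 then .inl (.inl ⟨i.val + 1, by omega⟩) else .inr 0
  | .inl (.inr j) => if h : j.val < b + 1 then .inl (.inr ⟨j.val + 1, by omega⟩) else .inr 1
  | .inr k => if k = 0 then .inl (.inr 0) else .inl (.inl 0)

/-- The standing assumptions about the left side: all points of `U` are far to the left and the
slopes of the segments to the points of the square `bx (-16 δ) 0 δ` are at most `σ`. -/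
def Far (δ σ D : ℝ) (p : E) : Prop :=
  p.1 ≤ -D ∧ ∀ s ∈ bx (-(16 * δ)) 0 δ, |s.2 - p.2| ≤ σ * (s.1 - p.1)

/-- The permutation of the monotone polygon given by `τ`: first the points with `τ = false` and
the last point from the left to the right, then the others from the right to the left. -/
def monoPerm {n : ℕ} (τ : Fin n → Bool) : Equiv.Perm (Fin n) :=
  Tuple.sort fun i : Fin n => if τ i = false ∨ i.val + 1 = n then i.val else 2 * n - i.val

/-- The condition on the heights: a point with `τ k = true` is above its two neighbours on the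
lower chain, a point with `τ k = false` is below its two neighbours on the upper chain (the first
and the last point are on both chains). -/
def NC {n : ℕ} (τ : Fin n → Bool) (y : Fin n → ℝ) : Prop :=
  (∀ i : Fin n, i.val = 0 ∨ i.val + 1 = n → τ i = false) ∧
  (∀ i k j : Fin n, i < k → k < j → τ i = false → τ j = false →
    (∀ l, i < l → l < j → τ l = true) → y i < y k ∧ y j < y k) ∧
  (∀ i k j : Fin n, i < k → k < j → (τ i = true ∨ i.val = 0) → (τ j = true ∨ j.val + 1 = n) →
    (∀ l, i < l → l < j → τ l = false) → y k < y i ∧ y k < y j)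

/-- The unit square. -/
def Q0 : Set E := {p | 0 ≤ p.1 ∧ p.1 ≤ 1 ∧ 0 ≤ p.2 ∧ p.2 ≤ 1}

end RP
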