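import Pool.Agent.Helper26.RP.Goals

/-!
# MP_105b7b_pr: packet E3N (a crossing-free geometric graph has at most `3 |T|` edges)
-/

noncomputable section

namespace RP.PkE3N

open MeasureTheory

/-- The combinatorial heart. -/
theorem caseI {V D : Type} (X Y : V → ℝ) (l r : D → V) (ev : D → ℝ → ℝ) (G : Finset D)
    (T : Finset V) (hX : Function.Injective X)
    (h1 : ∀ e ∈ G, X (l e) < X (r e)) (hlT : ∀ e ∈ G, l e ∈ T) (hrT : ∀ e ∈ G, r e ∈ T)
    (hl : ∀ e ∈ G, ev e (X (l e)) = Y (l e)) (hr : ∀ e ∈ G, ev e (X (r e)) = Y (r e))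
    (hP : ∀ e ∈ G, ∀ f ∈ G, e ≠ f → ∀ a b, X (l e) ≤ a → a ≤ X (r e) → X (l f) ≤ a →
      a ≤ X (r f) → X (l e) ≤ b → b ≤ X (r e) → X (l f) ≤ b → b ≤ X (r f) →
      ev e a ≤ ev f a → ev f b ≤ ev e b →
      ∃ v, (v = l e ∨ v = r e) ∧ (v = l f ∨ v = r f) ∧ min a b ≤ X v ∧ X v ≤ max a b)
    (hGP : ∀ h ∈ G, ∀ p, X (l h) < X p → X p < X (r h) → ev h (X p) ≠ Y p)
    (e f : D) (he : e ∈ G) (hf : f ∈ G) (hlf : l f = l e)
    (hfe : ev f (X (r f)) < ev e (X (r f))) (hlt : X (r f) < X (r e))
    (hmax : ∀ h ∈ G, l h = l e → ∀ t, X (l e) < t → t ≤ X (r f) → t ≤ X (r h) →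
      ev h t ≤ ev f t ∨ ev e t ≤ ev h t) :
    ∃ z ∈ T, X (l e) < X z ∧ X z < X (r e) ∧ Y z < ev e (X z) ∧
      ∀ h ∈ G, X (l h) < X z → X z < X (r h) → Y z < ev h (X z) → ev e (X z) ≤ ev h (X z) := by
  classical
  set Z := T.filter fun z => X (l e) < X z ∧ X z ≤ X (r f) ∧ Y z < ev e (X z) ∧
    ev f (X z) ≤ Y z with hZ
  have hlf' : X (l f) = X (l e) := by rw [hlf]
  have hfr := h1 f hf
  have hrZ : r f ∈ Z := by
    rw [hZ, Finset.mem_filter]
    refine ⟨hrT f hf, by rw [← hlf']; exact hfr, le_rfl, ?_, ?_⟩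
    · rw [← hr f hf]
      exact hfe
    · exact (hr f hf).le
  obtain ⟨z, hz, hmin⟩ := Finset.exists_min_image Z X ⟨_, hrZ⟩
  rw [hZ, Finset.mem_filter] at hz
  obtain ⟨hzT, hz1, hz2, hz3, hz4⟩ := hz
  refine ⟨z, hzT, hz1, lt_of_le_of_lt hz2 hlt, hz3, ?_⟩
  intro h hh hu hv hzh
  by_contra hlow
  rw [not_le] at hlow
  have hne : e ≠ h := fun hc => by
    rw [← hc] at hlow
    exact lt_irrefl _ hlow
  have hnf : h ≠ f := fun hc => by
    rw [hc] at hzh
    exact absurd hzh (not_lt.2 hz4)
  have hzq : X z < X (r e) := lt_of_le_of_lt hz2 hlt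
  rcases lt_trichotomy (X (l e)) (X (l h)) with hc | hc | hc
  · -- (a)
    have huZ : l h ∈ Z := by
      rw [hZ, Finset.mem_filter]
      refine ⟨hlT h hh, hc, hu.le.trans hz2, ?_, ?_⟩
      · by_contra hcon
        rw [not_lt, ← hl h hh] at hcon
        obtain ⟨v, hv1, hv2, hv3, hv4⟩ := hP e he h hh hne (X (l h)) (X z) hc.le
          (hu.trans hzq).le le_rfl (h1 h hh).le hz1.le hzq.le hu.le hv.le hcon hlow.le
        rw [min_eq_left hu.le] at hv3
        rw [max_eq_right hu.le] at hv4
        rcases hv1 with rfl | rfl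
        · linarith
        · linarith
      · by_contra hcon
        rw [not_le, ← hl h hh] at hcon
        obtain ⟨v, hv1, hv2, hv3, hv4⟩ := hP h hh f hf hnf (X (l h)) (X z) le_rfl (h1 h hh).le
          (by rw [hlf']; exact hc.le) (hu.le.trans hz2) hu.le hv.le (by rw [hlf']; exact hz1.le)
          hz2 hcon.le (hz4.trans hzh.le)
        rw [min_eq_left hu.le] at hv3
        rw [max_eq_right hu.le] at hv4
        rcases hv2 with rfl | rfl
        · linarith
        · have : X (r f) = X z := le_antisymm hv4 hz2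
          rcases hv1 with h' | h'
          · rw [h'] at this
            linarith
          · rw [h'] at this
            linarith
    have := hmin _ huZ
    linarith
  · -- (b)
    have hul : l h = l e := hX hc.symm
    rcases hmax h hh hul (X z) hz1 hz2 hv.le with h' | h'
    · linarith
    · linarith
  · -- (c)
    have hpr : X (l e) < X (r h) := hz1.trans hv
    have hnp := hGP h hh (l e) hc hpr
    have hle := hl e he
    have hlf2 : ev f (X (l e)) = Y (l e) := by
      have := hl f hf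
      rwa [hlf] at this
    rcases lt_or_gt_of_ne hnp with h' | h'
    · obtain ⟨v, hv1, hv2, hv3, hv4⟩ := hP h hh f hf hnf (X (l e)) (X z) hc.le hpr.le
        hlf'.le (hz1.le.trans hz2) hu.le hv.le (by rw [hlf']; exact hz1.le) hz2
        (by rw [hlf2]; exact h'.le) (hz4.trans hzh.le)
      rw [min_eq_left hz1.le] at hv3
      rw [max_eq_right hz1.le] at hv4
      rcases hv2 with h'' | h''
      · rw [h'', hlf] at hv1
        rcases hv1 with h3 | h3
        · rw [← h3] at hc
          exact lt_irrefl _ hc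
        · rw [← h3] at hpr
          exact lt_irrefl _ hpr
      · rw [h''] at hv4 hv1
        have : X (r f) = X z := le_antisymm hv4 hz2
        rcases hv1 with h3 | h3
        · rw [h3] at this
          linarith
        · rw [h3] at this
          linarith
    · obtain ⟨v, hv1, hv2, hv3, hv4⟩ := hP e he h hh hne (X (l e)) (X z) le_rfl
        (h1 e he).le hc.le hpr.le hz1.le hzq.le hu.le hv.le
        (by rw [hle]; exact h'.le) hlow.le
      rw [min_eq_left hz1.le] at hv3
      rw [max_eq_right hz1.le] at hv4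
      rcases hv1 with h'' | h''
      · rw [h''] at hv2
        rcases hv2 with h3 | h3
        · rw [← h3] at hc
          exact lt_irrefl _ hc
        · rw [← h3] at hpr
          exact lt_irrefl _ hpr
      · rw [h''] at hv4
        linarith

/-- Slope. -/
def sl {n : ℕ} (x : Fin n → E) (e : Fin n × Fin n) : ℝ :=
  ((x e.2).2 - (x e.1).2) / ((x e.2).1 - (x e.1).1)

def ev {n : ℕ} (x : Fin n → E) (e : Fin n × Fin n) (t : ℝ) : ℝ :=
  (x e.1).2 + sl x e * (t - (x e.1).1)

variable {n : ℕ} {x : Fin n → E}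

theorem ev_left (e : Fin n × Fin n) : ev x e (x e.1).1 = (x e.1).2 := by
  simp [ev]

theorem ev_right (e : Fin n × Fin n) (h : (x e.1).1 < (x e.2).1) :
    ev x e (x e.2).1 = (x e.2).2 := by
  have h0 : (x e.2).1 - (x e.1).1 ≠ 0 := by
    have := sub_pos.2 h
    exact this.ne'
  unfold ev sl
  field_simp
  ring

theorem ev_diff (e : Fin n × Fin n) (s t : ℝ) : ev x e t = ev x e s + sl x e * (t - s) := by
  unfold ev
  ring

theorem mem_seg (e : Fin n × Fin n) (h : (x e.1).1 < (x e.2).1) (t : ℝ) (h1 : (x e.1).1 ≤ t)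
    (h2 : t ≤ (x e.2).1) : ((t, ev x e t) : E) ∈ segment ℝ (x e.1) (x e.2) := by
  have h0 : 0 < (x e.2).1 - (x e.1).1 := sub_pos.2 h
  refine ⟨((x e.2).1 - t) / ((x e.2).1 - (x e.1).1), (t - (x e.1).1) / ((x e.2).1 - (x e.1).1),
    div_nonneg (by linarith) h0.le, div_nonneg (by linarith) h0.le, ?_, ?_⟩
  · rw [← add_div]
    rw [div_eq_one_iff_eq h0.ne']
    ring
  · ext
    · simp only [Prod.fst_add, Prod.smul_fst, smul_eq_mul]
      field_simp
      ring
    · simp only [Prod.snd_add, Prod.smul_snd, smul_eq_mul, ev, sl]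
      field_simp
      ring

theorem orient_ev (e : Fin n × Fin n) (h : (x e.1).1 < (x e.2).1) (p : E)
    (hp : ev x e p.1 = p.2) : orient (x e.1) (x e.2) p = 0 := by
  have h0 : (x e.2).1 - (x e.1).1 ≠ 0 := (sub_pos.2 h).ne'
  unfold orient
  rw [← hp]
  unfold ev sl
  field_simp
  ring

/-- Two edges on the same line are equal. -/
theorem col (hGP : GP x) (hinj : Function.Injective fun i => (x i).1) {e f : Fin n × Fin n}
    (he : (x e.1).1 < (x e.2).1) (hf : (x f.1).1 < (x f.2).1) (hsl : sl x e = sl x f) (t : ℝ)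
    (ht : ev x e t = ev x f t) : e = f := by
  have hev : ∀ s, ev x e s = ev x f s := fun s => by
    rw [ev_diff e t s, ev_diff f t s, hsl, ht]
  have hnee : e.1 ≠ e.2 := fun h => by rw [h] at he; exact lt_irrefl _ he
  have key : ∀ u : Fin n, ev x f (x u).1 = (x u).2 → u = e.1 ∨ u = e.2 := by
    intro u hu
    by_contra hc
    rw [not_or] at hc
    refine hGP e.1 e.2 u hnee (Ne.symm hc.2) (Ne.symm hc.1) (orient_ev e he (x u) ?_)
    rw [hev, hu]
  have k1 := key f.1 (ev_left f)
  have k2 := key f.2 (ev_right f hf)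
  have hnef : f.1 ≠ f.2 := fun h => by rw [h] at hf; exact lt_irrefl _ hf
  rcases k1 with k1 | k1
  · rcases k2 with k2 | k2
    · exact absurd (k1.trans k2.symm) hnef
    · exact Prod.ext k1.symm k2.symm
  · rcases k2 with k2 | k2
    · rw [k1, k2] at hf
      exact absurd (hf.trans he) (lt_irrefl _)
    · exact absurd (k1.trans k2.symm) hnef

theorem meet (hGP : GP x) (hinj : Function.Injective fun i => (x i).1) {e f : Fin n × Fin n}
    (he : (x e.1).1 < (x e.2).1) (hf : (x f.1).1 < (x f.2).1) (hne : e ≠ f)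
    (hNX : NX (x e.1) (x e.2) (x f.1) (x f.2)) (t : ℝ) (h1 : (x e.1).1 ≤ t) (h2 : t ≤ (x e.2).1)
    (h3 : (x f.1).1 ≤ t) (h4 : t ≤ (x f.2).1) (ht : ev x e t = ev x f t) :
    ∃ v, (v = e.1 ∨ v = e.2) ∧ (v = f.1 ∨ v = f.2) ∧ (x v).1 = t := by
  have hinj' : ∀ i j, x i = x j → i = j := fun i j h => hinj (by simp only [h])
  have share : ∃ v, (v = e.1 ∨ v = e.2) ∧ (v = f.1 ∨ v = f.2) := by
    rcases hNX with h | h
    · rcases h with h | h | h | h
      · exact ⟨e.1, Or.inl rfl, Or.inl (hinj' _ _ h)⟩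
      · exact ⟨e.1, Or.inl rfl, Or.inr (hinj' _ _ h)⟩
      · exact ⟨e.2, Or.inr rfl, Or.inl (hinj' _ _ h)⟩
      · exact ⟨e.2, Or.inr rfl, Or.inr (hinj' _ _ h)⟩
    · exfalso
      have m1 := mem_seg e he t h1 h2
      have m2 := mem_seg f hf t h3 h4
      rw [← ht] at m2
      exact Set.disjoint_left.1 h m1 m2
  obtain ⟨v, hv1, hv2⟩ := share
  refine ⟨v, hv1, hv2, ?_⟩
  by_contra hvt
  have e1 : ev x e (x v).1 = (x v).2 := by
    rcases hv1 with rfl | rfl
    · exact ev_left e
    · exact ev_right e he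
  have e2 : ev x f (x v).1 = (x v).2 := by
    rcases hv2 with rfl | rfl
    · exact ev_left f
    · exact ev_right f hf
  have hsl : sl x e = sl x f := by
    have k1 := ev_diff (x := x) e (x v).1 t
    have k2 := ev_diff (x := x) f (x v).1 t
    rw [e1] at k1
    rw [e2, ← ht, k1] at k2
    have h0 : t - (x v).1 ≠ 0 := sub_ne_zero.2 (Ne.symm hvt)
    have k3 : sl x e * (t - (x v).1) = sl x f * (t - (x v).1) := by linarith
    exact mul_right_cancel₀ h0 k3
  exact hne (col hGP hinj he hf hsl t ht)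

theorem propP (hGP : GP x) (hinj : Function.Injective fun i => (x i).1) {e f : Fin n × Fin n}
    (he : (x e.1).1 < (x e.2).1) (hf : (x f.1).1 < (x f.2).1) (hne : e ≠ f)
    (hNX : NX (x e.1) (x e.2) (x f.1) (x f.2)) (a b : ℝ)
    (a1 : (x e.1).1 ≤ a) (a2 : a ≤ (x e.2).1) (a3 : (x f.1).1 ≤ a) (a4 : a ≤ (x f.2).1)
    (b1 : (x e.1).1 ≤ b) (b2 : b ≤ (x e.2).1) (b3 : (x f.1).1 ≤ b) (b4 : b ≤ (x f.2).1)
    (ha : ev x e a ≤ ev x f a) (hb : ev x f b ≤ ev x e b) :
    ∃ v, (v = e.1 ∨ v = e.2) ∧ (v = f.1 ∨ v = f.2) ∧ min a b ≤ (x v).1 ∧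
      (x v).1 ≤ max a b := by
  have hcont : Continuous fun t => ev x f t - ev x e t := by
    unfold ev
    fun_prop
  have hz : (0 : ℝ) ∈ Set.uIcc ((fun t => ev x f t - ev x e t) a)
      ((fun t => ev x f t - ev x e t) b) := by
    rw [Set.mem_uIcc]
    right
    constructor
    · simp only
      linarith
    · simp only
      linarith
  obtain ⟨t, ht, ht0⟩ := intermediate_value_uIcc hcont.continuousOn hz
  rw [Set.mem_uIcc] at ht
  have ht0' : ev x e t = ev x f t := by
    simp only at ht0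
    linarith
  have r1 : (x e.1).1 ≤ t ∧ t ≤ (x e.2).1 ∧ (x f.1).1 ≤ t ∧ t ≤ (x f.2).1 := by
    rcases ht with h | h
    · exact ⟨a1.trans h.1, h.2.trans b2, a3.trans h.1, h.2.trans b4⟩
    · exact ⟨b1.trans h.1, h.2.trans a2, b3.trans h.1, h.2.trans a4⟩
  obtain ⟨v, hv1, hv2, hv3⟩ := meet hGP hinj he hf hne hNX t r1.1 r1.2.1 r1.2.2.1 r1.2.2.2 ht0'
  refine ⟨v, hv1, hv2, ?_, ?_⟩
  · rw [hv3]
    rcases ht with h | h
    · exact (min_le_left _ _).trans h.1
    · exact (min_le_right _ _).trans h.1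
  · rw [hv3]
    rcases ht with h | h
    · exact h.2.trans (le_max_right _ _)
    · exact h.2.trans (le_max_left _ _)

/-- The vertex `z` is charged by `e`. -/
def Cz (x : Fin n → E) (G : Finset (Fin n × Fin n)) (T : Finset (Fin n)) (e : Fin n × Fin n)
    (z : Fin n) : Prop :=
  z ∈ T ∧ (x e.1).1 < (x z).1 ∧ (x z).1 < (x e.2).1 ∧ (x z).2 < ev x e (x z).1 ∧
    ∀ h ∈ G, (x h.1).1 < (x z).1 → (x z).1 < (x h.2).1 → (x z).2 < ev x h (x z).1 →
      ev x e (x z).1 ≤ ev x h (x z).1

theorem claim (hGP : GP x) (hinj : Function.Injective fun i => (x i).1)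
    (G : Finset (Fin n × Fin n)) (T : Finset (Fin n))
    (hG : ∀ e ∈ G, (x e.1).1 < (x e.2).1 ∧ e.1 ∈ T ∧ e.2 ∈ T)
    (hNX : ∀ e ∈ G, ∀ f ∈ G, NX (x e.1) (x e.2) (x f.1) (x f.2))
    (e : Fin n × Fin n) (he : e ∈ G) :
    (∀ f ∈ G, f.1 = e.1 → sl x e ≤ sl x f) ∨ (∀ f ∈ G, f.2 = e.2 → sl x f ≤ sl x e) ∨
      ∃ z, Cz x G T e z := by
  classical
  by_contra hcon
  rw [not_or, not_or] at hcon
  obtain ⟨hA, hB, hC⟩ := hcon
  push Not at hA hB
  obtain ⟨f0, hf0, hf0e, hf0s⟩ := hA
  obtain ⟨g0, hg0, hg0e, hg0s⟩ := hB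
  obtain ⟨f, hf, hfmax⟩ := Finset.exists_max_image (G.filter fun f => f.1 = e.1 ∧ sl x f < sl x e)
    (sl x) ⟨f0, Finset.mem_filter.2 ⟨hf0, hf0e, hf0s⟩⟩
  obtain ⟨g, hg, hgmin⟩ := Finset.exists_min_image (G.filter fun f => f.2 = e.2 ∧ sl x e < sl x f)
    (sl x) ⟨g0, Finset.mem_filter.2 ⟨hg0, hg0e, hg0s⟩⟩
  rw [Finset.mem_filter] at hf hg
  obtain ⟨hfG, hfe, hfs⟩ := hf
  obtain ⟨hgG, hge, hgs⟩ := hg
  have hEe := (hG e he).1
  have hEf := (hG f hfG).1
  have hEg := (hG g hgG).1
  have hPP : ∀ e ∈ G, ∀ f ∈ G, e ≠ f → ∀ a b, (x e.1).1 ≤ a → a ≤ (x e.2).1 → (x f.1).1 ≤ a →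
      a ≤ (x f.2).1 → (x e.1).1 ≤ b → b ≤ (x e.2).1 → (x f.1).1 ≤ b → b ≤ (x f.2).1 →
      ev x e a ≤ ev x f a → ev x f b ≤ ev x e b →
      ∃ v, (v = e.1 ∨ v = e.2) ∧ (v = f.1 ∨ v = f.2) ∧ min a b ≤ (x v).1 ∧
        (x v).1 ≤ max a b := fun e he f hf hne a b a1 a2 a3 a4 b1 b2 b3 b4 ha hb =>
    propP hGP hinj (hG e he).1 (hG f hf).1 hne (hNX e he f hf) a b a1 a2 a3 a4 b1 b2 b3 b4 ha hb
  have hGPP : ∀ h ∈ G, ∀ p, (x h.1).1 < (x p).1 → (x p).1 < (x h.2).1 →
      ev x h (x p).1 ≠ (x p).2 := by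
    intro h hh p h1 h2 hc
    have n1 : h.1 ≠ h.2 := fun h' => by
      have := (hG h hh).1
      rw [h'] at this
      exact lt_irrefl _ this
    have n2 : h.2 ≠ p := fun h' => by rw [h'] at h2; exact lt_irrefl _ h2
    have n3 : h.1 ≠ p := fun h' => by rw [h'] at h1; exact lt_irrefl _ h1
    exact hGP h.1 h.2 p n1 n2 n3 (orient_ev h (hG h hh).1 (x p) hc)
  have hfe2 : f.2 ≠ e.2 := fun h => by
    have : f = e := Prod.ext hfe h
    rw [this] at hfs
    exact lt_irrefl _ hfs
  have hge1 : g.1 ≠ e.1 := fun h => by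
    have : g = e := Prod.ext h hge
    rw [this] at hgs
    exact lt_irrefl _ hgs
  have cases2 : (x f.2).1 < (x e.2).1 ∨ (x e.1).1 < (x g.1).1 := by
    by_contra hc
    rw [not_or, not_lt, not_lt] at hc
    obtain ⟨c1, c2⟩ := hc
    have c1' : (x e.2).1 < (x f.2).1 := lt_of_le_of_ne c1 fun h => hfe2 (hinj h.symm)
    have c2' : (x g.1).1 < (x e.1).1 := lt_of_le_of_ne c2 fun h => hge1 (hinj h)
    have hfg : g ≠ f := fun h => by
      rw [h, hfe] at c2'
      exact lt_irrefl _ c2'
    have q1 : ev x g (x e.1).1 < (x e.1).2 := by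
      have k1 := ev_diff (x := x) g (x e.2).1 (x e.1).1
      have k2 := ev_diff (x := x) e (x e.2).1 (x e.1).1
      have k3 : ev x g (x e.2).1 = (x e.2).2 := by
        have := ev_right g hEg
        rwa [hge] at this
      rw [ev_left, ev_right e hEe] at k2
      rw [k1, k3, k2]
      nlinarith
    have q2 : ev x f (x e.2).1 < (x e.2).2 := by
      have k1 := ev_diff (x := x) f (x e.1).1 (x e.2).1
      have k2 := ev_diff (x := x) e (x e.1).1 (x e.2).1
      have k3 : ev x f (x e.1).1 = (x e.1).2 := by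
        have := ev_left (x := x) f
        rwa [hfe] at this
      rw [ev_left, ev_right e hEe] at k2
      rw [k1, k3, k2]
      nlinarith
    have q3 : ev x f (x e.1).1 = (x e.1).2 := by
      have := ev_left (x := x) f
      rwa [hfe] at this
    have q4 : ev x g (x e.2).1 = (x e.2).2 := by
      have := ev_right g hEg
      rwa [hge] at this
    obtain ⟨v, hv1, hv2, -, -⟩ := hPP g hgG f hfG hfg (x e.1).1 (x e.2).1 c2'.le
      (by rw [hge]; exact hEe.le) (by rw [hfe]) (hEe.le.trans c1'.le) (c2'.le.trans hEe.le)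
      (by rw [hge]) (by rw [hfe]; exact hEe.le) c1'.le (by rw [q3]; exact q1.le)
      (by rw [q4]; exact q2.le)
    rw [hge] at hv1
    rw [hfe] at hv2
    rcases hv1 with rfl | rfl
    · rcases hv2 with h | h
      · exact hge1 h
      · rw [h] at c2'
        linarith
    · rcases hv2 with h | h
      · rw [h] at hEe
        exact lt_irrefl _ hEe
      · exact hfe2 h.symm
  apply hC
  rcases cases2 with hc | hc
  · -- case I
    obtain ⟨z, hz, h1, h2, h3, h4⟩ := caseI (fun i => (x i).1) (fun i => (x i).2) Prod.fst Prod.snd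
      (ev x) G T hinj (fun e he => (hG e he).1) (fun e he => (hG e he).2.1)
      (fun e he => (hG e he).2.2) (fun e _ => ev_left e) (fun e he => ev_right e (hG e he).1)
      hPP hGPP e f he hfG hfe
      (by
        have k1 := ev_diff (x := x) f (x e.1).1 (x f.2).1
        have k2 := ev_diff (x := x) e (x e.1).1 (x f.2).1
        have k3 : ev x f (x e.1).1 = (x e.1).2 := by
          have := ev_left (x := x) f
          rwa [hfe] at this
        rw [ev_left] at k2
        try simp only
        rw [k1, k2, k3]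
        rw [hfe] at hEf
        nlinarith)
      hc
      (by
        intro h hh hhe t ht1 ht2 ht3
        try simp only at ht1 ht2 ht3
        have k1 := ev_diff (x := x) f (x e.1).1 t
        have k2 := ev_diff (x := x) e (x e.1).1 t
        have k4 := ev_diff (x := x) h (x e.1).1 t
        have k3 : ev x f (x e.1).1 = (x e.1).2 := by
          have := ev_left (x := x) f
          rwa [hfe] at this
        have k5 : ev x h (x e.1).1 = (x e.1).2 := by
          have := ev_left (x := x) h
          rwa [hhe] at this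
        rw [ev_left] at k2
        rw [k1, k2, k3, k4, k5]
        rcases lt_or_ge (sl x h) (sl x e) with hs | hs
        · left
          have := hfmax h (Finset.mem_filter.2 ⟨hh, hhe, hs⟩)
          nlinarith
        · right
          nlinarith)
    exact ⟨z, hz, h1, h2, h3, h4⟩
  · -- case II: reflection
    obtain ⟨z, hz, h1, h2, h3, h4⟩ := caseI (fun i => -(x i).1) (fun i => (x i).2) Prod.snd Prod.fst
      (fun e t => ev x e (-t)) G T (fun i j h => hinj (neg_injective h))
      (fun e he => neg_lt_neg (hG e he).1) (fun e he => (hG e he).2.2)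
      (fun e he => (hG e he).2.1) (fun e he => by
        simp only [neg_neg]
        exact ev_right e (hG e he).1) (fun e he => by
        simp only [neg_neg]
        exact ev_left e)
      (by
        intro e he f hf hne a b a1 a2 a3 a4 b1 b2 b3 b4 hab hba
        obtain ⟨v, hv1, hv2, hv3, hv4⟩ := hPP e he f hf hne (-a) (-b) (by linarith) (by linarith)
          (by linarith) (by linarith) (by linarith) (by linarith) (by linarith) (by linarith)
          hab hba
        refine ⟨v, hv1.symm, hv2.symm, ?_, ?_⟩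
        · rw [max_neg_neg] at hv4
          try simp only
          linarith
        · rw [min_neg_neg] at hv3
          try simp only
          linarith)
      (by
        intro h hh p h1 h2
        simp only [neg_neg]
        exact hGPP h hh p (by linarith) (by linarith))
      e g he hgG hge
      (by
        simp only [neg_neg]
        have k1 := ev_diff (x := x) g (x e.2).1 (x g.1).1
        have k2 := ev_diff (x := x) e (x e.2).1 (x g.1).1
        have k3 : ev x g (x e.2).1 = (x e.2).2 := by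
          have := ev_right g hEg
          rwa [hge] at this
        rw [ev_right e hEe] at k2
        rw [k1, k2, k3]
        rw [hge] at hEg
        nlinarith)
      (neg_lt_neg hc)
      (by
        intro h hh hhe t ht1 ht2 ht3
        try simp only at ht1 ht2 ht3 ⊢
        have k1 := ev_diff (x := x) g (x e.2).1 (-t)
        have k2 := ev_diff (x := x) e (x e.2).1 (-t)
        have k4 := ev_diff (x := x) h (x e.2).1 (-t)
        have k3 : ev x g (x e.2).1 = (x e.2).2 := by
          have := ev_right g hEg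
          rwa [hge] at this
        have k5 : ev x h (x e.2).1 = (x e.2).2 := by
          have := ev_right h (hG h hh).1
          rwa [hhe] at this
        rw [ev_right e hEe] at k2
        rw [k1, k2, k3, k4, k5]
        rcases lt_or_ge (sl x e) (sl x h) with hs | hs
        · left
          have := hgmin h (Finset.mem_filter.2 ⟨hh, hhe, hs⟩)
          nlinarith
        · right
          nlinarith)
    refine ⟨z, hz, by linarith, by linarith, ?_, ?_⟩
    · simpa only [neg_neg] using h3
    · intro h hh c1 c2 c3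
      have := h4 h hh (by linarith) (by linarith) (by simpa only [neg_neg] using c3)
      simpa only [neg_neg] using this

theorem e3n : G_E3N := by
  classical
  intro n x hGP hinj G T hG hNX
  have hcl := claim hGP hinj G T hG hNX
  let GA := G.filter fun e => ∀ f ∈ G, f.1 = e.1 → sl x e ≤ sl x f
  let GB := G.filter fun e => ∀ f ∈ G, f.2 = e.2 → sl x f ≤ sl x e
  let GC := G.filter fun e => ∃ z, Cz x G T e z
  have hsub : G ⊆ GA ∪ (GB ∪ GC) := by
    intro e he
    rcases hcl e he with h | h | h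
    · exact Finset.mem_union_left _ (Finset.mem_filter.2 ⟨he, h⟩)
    · exact Finset.mem_union_right _ (Finset.mem_union_left _ (Finset.mem_filter.2 ⟨he, h⟩))
    · exact Finset.mem_union_right _ (Finset.mem_union_right _ (Finset.mem_filter.2 ⟨he, h⟩))
  have hA : GA.card ≤ T.card := by
    refine Finset.card_le_card_of_injOn (fun e => e.1) ?_ ?_
    · intro e he
      have he' := (Finset.mem_filter.1 (Finset.mem_coe.1 he)).1
      exact Finset.mem_coe.2 (hG e he').2.1
    · intro e he f hf hef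
      have he' := Finset.mem_filter.1 (Finset.mem_coe.1 he)
      have hf' := Finset.mem_filter.1 (Finset.mem_coe.1 hf)
      simp only at hef
      have hs : sl x e = sl x f := le_antisymm (he'.2 f hf'.1 hef.symm) (hf'.2 e he'.1 hef)
      refine col hGP hinj (hG e he'.1).1 (hG f hf'.1).1 hs (x e.1).1 ?_
      rw [ev_left, hef, ev_left]
  have hB : GB.card ≤ T.card := by
    refine Finset.card_le_card_of_injOn (fun e => e.2) ?_ ?_
    · intro e he
      have he' := (Finset.mem_filter.1 (Finset.mem_coe.1 he)).1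
      exact Finset.mem_coe.2 (hG e he').2.2
    · intro e he f hf hef
      have he' := Finset.mem_filter.1 (Finset.mem_coe.1 he)
      have hf' := Finset.mem_filter.1 (Finset.mem_coe.1 hf)
      simp only at hef
      have hs : sl x e = sl x f := le_antisymm (hf'.2 e he'.1 hef) (he'.2 f hf'.1 hef.symm)
      refine col hGP hinj (hG e he'.1).1 (hG f hf'.1).1 hs (x e.2).1 ?_
      rw [ev_right e (hG e he'.1).1, hef, ev_right f (hG f hf'.1).1]
  have hC : GC.card ≤ T.card := by
    have hch : ∀ e ∈ GC, ∃ z, Cz x G T e z := fun e he => (Finset.mem_filter.1 he).2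
    let z : Fin n × Fin n → Fin n := fun e => if h : ∃ z, Cz x G T e z then h.choose else e.1
    have hz : ∀ e ∈ GC, Cz x G T e (z e) := fun e he => by
      have h := hch e he
      simp only [z, dif_pos h]
      exact h.choose_spec
    refine Finset.card_le_card_of_injOn z ?_ ?_
    · intro e he
      exact Finset.mem_coe.2 (hz e he).1
    · intro e he f hf hef
      have he' := Finset.mem_filter.1 (Finset.mem_coe.1 he)
      have hf' := Finset.mem_filter.1 (Finset.mem_coe.1 hf)
      obtain ⟨_, e1, e2, e3, e4⟩ := hz e he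
      obtain ⟨_, f1, f2, f3, f4⟩ := hz f hf
      rw [← hef] at f1 f2 f3 f4
      by_contra hne
      have heq : ev x e (x (z e)).1 = ev x f (x (z e)).1 :=
        le_antisymm (e4 f hf'.1 f1 f2 f3) (f4 e he'.1 e1 e2 e3)
      obtain ⟨v, hv1, hv2, hv3⟩ := meet hGP hinj (hG e he'.1).1 (hG f hf'.1).1 hne
        (hNX e he'.1 f hf'.1) (x (z e)).1 e1.le e2.le f1.le f2.le heq
      rcases hv1 with rfl | rfl
      · linarith
      · linarith
  calc G.card ≤ (GA ∪ (GB ∪ GC)).card := Finset.card_le_card hsub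
    _ ≤ GA.card + (GB ∪ GC).card := Finset.card_union_le _ _
    _ ≤ GA.card + (GB.card + GC.card) := by
      have := Finset.card_union_le GB GC
      omega
    _ ≤ 3 * T.card := by omega

end RP.PkE3N
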