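import Pool.Agent.Helper26.RP.Defs

/-!
# MP_105b7b_pr: goals

THEOREM. There is `γ` in `(1, ∞)` with `(n! p_n(K))^(1/n) → γ` for every convex body `K` of the
plane, where `p_n(K)` is the probability that the closed polygon through `n` independent uniform
random points of `K` is simple.

Conventions: `orient a b c > 0` means that `a, b, c` are counterclockwise. Useful everywhere:
`orient a b p` is an affine function of `p`; if `p ∈ segment a b` then `orient a b p = 0`; four
point identity `orient a b c - orient a b d + orient a c d - orient b c d = 0`; for `a.1 < b.1` the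
sign of `orient a b p` is the sign of `p.2 - L(p.1)`, where `L` is the line through `a` and `b`:
`orient a b p = (b.1 - a.1) * (p.2 - a.2) - (b.2 - a.2) * (p.1 - a.1)`.
-/

noncomputable section

namespace RP

open MeasureTheory Filter Topology

/-! ## Part I: geometry -/

/-- TOP. A finite family of `disjoint segments` has a top element. `l e < r e` are the abscissas of
the endpoints, `ev e t` is the height of the segment `e` above `t`.
Proof. Induction on the number of elements of `F` (for all nonempty `F`). Let `e` have the least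
`r e`. If `F = {e}` it is the top element. Otherwise let `e'` be a top element of `F.erase e`. If
`e'` is also a top element of `F`, done. Otherwise `ev e' t₁ < ev e t₁` for some common `t₁`. We
claim that `e` is a top element of `F`. Suppose `ev e t₂ < ev f t₂` for a common `t₂`, `f ∈ F`;
then `f ≠ e`. Let `t` be any number with `max (l e) (l e') (l f) < t < r e`: it exists, since
`l e' < t₁ < r e` and `l f < t₂ < r e`; and `t < r e ≤ r e'`, `t < r e ≤ r f`. By the consistency
hypothesis `ev e' t < ev e t < ev f t`, and `f ∈ F.erase e`, a contradiction to the choice of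
`e'`. -/
def G_TOP : Prop := ∀ (V : Type) (F : Finset V) (l r : V → ℝ) (ev : V → ℝ → ℝ), F.Nonempty →
  (∀ e ∈ F, l e < r e) →
  (∀ e ∈ F, ∀ f ∈ F, ∀ t t', l e < t → t < r e → l f < t → t < r f →
    l e < t' → t' < r e → l f < t' → t' < r f → ev e t < ev f t → ev e t' < ev f t') →
  ∃ e ∈ F, ∀ f ∈ F, ∀ t, l e < t → t < r e → l f < t → t < r f → ¬ ev e t < ev f t

/-- VIS. A point `s` to the right of a simple closed polygon sees both endpoints of some edge.
Proof. Put `A i = s.1 - (x i).1 > 0`, `m i = ((x i).2 - s.2) / A i`, `k i = 1 / A i > 0`. For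
`i ≠ j` we have `m i ≠ m j`, since `orient s (x i) (x j) = A i * A j * (m i - m j)`.
The edge `j` has the endpoints `a = x j`, `b = x (finRotate n j)`; put `l j = min (m a) (m b)`,
`r j = max (m a) (m b)` and let `ev j` be the affine function with `ev j (m a) = k a`,
`ev j (m b) = k b`.
Fact A: a point `p` with `p.1 < s.1` is on the segment `ab` if and only if
`t = (p.2 - s.2) / (s.1 - p.1)` is in `[l j, r j]` and `1 / (s.1 - p.1) = ev j t`. (If
`p = (1 - λ) a + λ b` and `D = s.1 - p.1 = (1 - λ) A a + λ A b`, then `(t, 1 / D)` is the convex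
combination of `(m a, k a)` and `(m b, k b)` with the weights `(1 - λ) A a / D`, `λ A b / D`; every
pair of weights occurs.)
Fact B (consistency): let `ev i t < ev j t` and `ev j t' ≤ ev i t'` for `t`, `t'` in both open
intervals. Then `ev i t'' = ev j t''` for some `t''` in both open intervals. By fact A the edges
have the point with the coordinates `t''`, `ev i t''` in common, so by `Cl` they have a common
endpoint `v`; then the affine functions `ev i`, `ev j` agree at `m v ≠ t''` and at `t''`, so they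
are equal, contradiction.
By TOP there is a top edge `i`. Suppose that for an endpoint `v` of the edge `i` and an edge `j`
(endpoints `a`, `b`) `NX s v a b` fails. Then `v ≠ a, b` and there is `p` in both segments;
`p.1 < s.1`, `p = s + θ (v - s)` with `0 < θ ≤ 1`, so `t = m v` and `1 / (s.1 - p.1) = k v / θ`. By
fact A `ev j (m v) = k v / θ`, `m v ∈ [l j, r j]`, and `m v ≠ m a, m b`. If `θ = 1`, then `v = p` is
on `ab`, contradiction to `GP`. So `k v = ev i (m v) < ev j (m v)`, and by continuity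
`ev i t < ev j t` for some `t` in both open intervals close to `m v`. Contradiction. -/
def G_VIS : Prop := ∀ (n : ℕ) (s : E) (x : Fin n → E), 3 ≤ n → (∀ i, (x i).1 < s.1) →
  GP (Fin.cons s x : Fin (n + 1) → E) → Cl (finRotate n) x →
  ∃ i, ∀ j, NX s (x i) (x j) (x (finRotate n j)) ∧
    NX s (x (finRotate n i)) (x j) (x (finRotate n j))

/-- SWP. If two segments `su` and `vs'` with endpoints in general position meet, then `s'u` and `vs`
do not.
Proof. Put `o1 = orient s u v`, `o2 = orient s u s'`, `o3 = orient s v s'`, `o4 = orient u v s'`;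
`o1 - o2 + o3 - o4 = 0`. If `p` is on `su` and `vs'`: `orient s u` is affine, nonzero at `v`, `s'`
and zero at `p`, so `o1 * o2 < 0`; in the same way `orient v s' s * orient v s' u < 0`, that is
`o3 * o4 < 0`. If `q` is on `s'u` and `vs`: `orient s' u v * orient s' u s < 0`, that is
`o4 * (-o2) < 0`, and `orient v s s' * orient v s u < 0`, that is `-o3 * o1 < 0`. So `o1`, `o3`
have the same sign, `o2`, `o4` have the other sign, contradiction to `o1 + o3 = o2 + o4`. -/
def G_SWP : Prop := ∀ s s' u v : E, GP ![s, s', u, v] →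
  Disjoint (segment ℝ s u) (segment ℝ v s') ∨ Disjoint (segment ℝ s' u) (segment ℝ v s)

/-- STR. The strands: strand 1 comes from `v1` to `s1` and goes down steeply to `gd`, strand 2 comes
from `v2` to `s2` and goes up steeply to `gu`.
Proof. Let `L1`, `L2` be the lines through `v1, s1` and `v2, s2` (slopes at most `σ` in absolute
value). A point `p` of `s1 gd` satisfies `p.1 ≥ s1.1` and `p.2 ≤ s1.2 - σ (p.1 - s1.1)`, a point `q`
of `s2 gu` satisfies `q.1 ≥ s2.1` and `q.2 ≥ s2.2 + σ (q.1 - s2.1)`.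
Case A: `s1.1 ≤ s2.1`, `s1.2 < L2(s1.1)`. (1) If `p = q`, then `s2.2 = L2(s2.1) ≥ L2(s1.1) -
σ (s2.1 - s1.1) > s1.2 - σ (s2.1 - s1.1)`, so `q.2 > s1.2 - σ (s2.1 - s1.1) + σ (q.1 - s2.1) ≥
s1.2 - σ (q.1 - s1.1) ≥ p.2`. (2) for `p` on `s1 gd`: `L2(p.1) ≥ L2(s1.1) - σ (p.1 - s1.1) >
s1.2 - σ (p.1 - s1.1) ≥ p.2`, so `p` is not on `L2`. (3) `s2 gu` and `v1 s1`: the abscissas are
`≥ s2.1` and `≤ s1.1`; so a common point is `s1 = s2` (`gu.1 > s2.1`, `v1.1 < s1.1`), but
`orient v2 s2 s1 < 0`.
Case B: `s2.1 ≤ s1.1`, `L1(s2.1) < s2.2`: in the same way (reflect at the horizontal axis and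
exchange 1 and 2). -/
def G_STR : Prop := ∀ (σ : ℝ) (v1 s1 v2 s2 gd gu : E), 0 ≤ σ → v1.1 < s1.1 → v2.1 < s2.1 →
  |s1.2 - v1.2| ≤ σ * (s1.1 - v1.1) → |s2.2 - v2.2| ≤ σ * (s2.1 - v2.1) →
  s1.1 < gd.1 → s2.1 < gu.1 → σ * (gd.1 - s1.1) < s1.2 - gd.2 → σ * (gu.1 - s2.1) < gu.2 - s2.2 →
  Low v1 s1 v2 s2 →
  Disjoint (segment ℝ s1 gd) (segment ℝ s2 gu) ∧ Disjoint (segment ℝ s1 gd) (segment ℝ v2 s2) ∧
    Disjoint (segment ℝ s2 gu) (segment ℝ v1 s1)

/-- JOI. Joining a left path `u` and a right path `w` by the extra points `g'` (up) and `g` (down):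
the closed polygon `u 0, ..., u (a+1), g', w 0, ..., w (b+1), g`.
Proof. Write `s = u 0`, `s' = u last`, `t' = w 0`, `t = w last`. `s`, `s'` are in the square
`bx (-16δ) 0 δ`, `t`, `t'` in `bx (16δ) 0 δ`. Edges and their abscissas: the edges of `u`: `≤ -15δ`;
those between two inner vertices: `≤ -D < -17δ`; the edges of `w`: `≥ 15δ`, inner ones
`≥ D > 17δ`; `M1 = s'g'` and `M4 = gs`: in `[-17δ, δ]`; `M2 = g't'` and `M3 = tg`: in `[-δ, 17δ]`.
Pairs: `u`-edges are NX by `Pa u`, `w`-edges by `Pa w` (symmetry of `rf` and `Fin.rev`), a `u`-edge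
and a `w`-edge are disjoint (abscissas), `u`-edges and `M2`, `M3` are disjoint, inner `u`-edges and
`M1`, `M4` are disjoint; the first edge `s u_1`: it has the endpoint `s` in common with `M4`, and is
disjoint from `M1` by STR with strand 1 `v1 = u 1, s1 = s, gd = g` and strand 2
`v2 = u a, s2 = s', gu = g'` (the slopes are at most `σ` by `Far`; from a point of the left square
to `g'`: height at least `v - 2δ`, width in `(0, 18δ]`, and `18δσ < v - 2δ`); the last edge
`u_a s'` has the endpoint `s'` in common with `M1` and is disjoint from `M4` by STR; `M1`, `M4` are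
disjoint by STR. The right side in the same way with `rf` (`t` is the lower strand). `M1`, `M2`
have `g'` in common, `M3`, `M4` have `g` in common. `M1` and `M3` can only meet at abscissas in
`[-δ, δ]`; a point of `M1` with abscissa `≥ -δ` is `(1 - λ) g' + λ s'` with
`λ ≤ 2δ / (14δ) = 1 / 7`, its height is at least `(6/7) (v - δ) - δ / 7 > 0` (`v ≥ 4δ`), the same
for `M3` with height `< 0`. `M2` and `M4` in the same way. -/
def G_JOI : Prop := ∀ (δ v σ D : ℝ) (a b : ℕ) (u : Fin (a + 2) → E) (w : Fin (b + 2) → E)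
  (g' g : E), 0 < δ → 4 * δ ≤ v → 0 ≤ σ → 18 * δ * σ < v - 2 * δ → 17 * δ < D → 1 ≤ a → 1 ≤ b →
  u ∈ Blk (bx (-(16 * δ)) 0 δ) {p | Far δ σ D p} a →
  (fun i => rf (w i.rev)) ∈ Blk (bx (-(16 * δ)) 0 δ) {p | Far δ σ D p} b →
  g' ∈ bx 0 v δ → g ∈ bx 0 (-v) δ →
  GP (Sum.elim (Sum.elim u w) ![g', g] : J a b → E) →
  Cl (succJ a b) (Sum.elim (Sum.elim u w) ![g', g] : J a b → E)

/-- EXI. There is a simple polygon.
Proof. Let `x q` be the leftmost point. The other points have different slopes
`m i = ((x i).2 - (x q).2) / ((x i).1 - (x q).1)` (`GP`). Take the permutation which starts with `q`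
and then has the other points ordered by increasing slope: for instance `σ` = sort of the key
`i ↦ ((if i = q then 0 else 1), m i)` in `ℝ ×ₗ ℝ`, or `Tuple.sort` of the real key `arctan (m i)`,
`-10` for `i = q`. Let `p_0 = x q, p_1, ..., p_{n-1}` be the polygon. The edges `p_i p_{i+1}`,
`1 ≤ i < n - 1`, lie in the angle of the slopes `[m_i, m_{i+1}]` and do not contain `p_0`; two such
edges with `i + 1 < j` have no common slope. `p_0 p_1`: slope `m_1`, which only occurs at `p_1` on
`p_1 p_2`, and not on the later edges; `p_{n-1} p_0` in the same way. -/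
def G_EXI : Prop := ∀ (n : ℕ) (x : Fin n → E), 3 ≤ n → GP x →
  Function.Injective (fun i => (x i).1) → ∃ σ : Equiv.Perm (Fin n), Cl (finRotate n) (x ∘ σ)

/-- E3N. A crossing-free geometric graph with vertices in `T` has at most `3 |T|` edges. The edges
are pairs `e = (p, q)` with `x_p < x_q` (`x_p` is short for the abscissa of the point `p`, `y_p` for
its ordinate).
Proof. Let `ev e` be the affine function whose graph contains the edge `e`. (*) If
`ev e t ≤ ev f t` and `ev f t' ≤ ev e t'` with `t`, `t'` in the ranges of `e` and `f`, then the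
segments have a common point at an abscissa `t''` between `t` and `t'` (IVT), so by NX they have a
common vertex; if the abscissa of the common vertex is not `t''`, then `ev e = ev f`.
Assign to `e = (p, q) ∈ G`: (1) `(1, p)` if `e` has the least slope among the edges of `G` with
left endpoint `p`; (2) otherwise `(2, q)` if `e` has the largest slope among those with right
endpoint `q`; (3) otherwise `(3, z)` where `z ∈ T` is a vertex with `x_p < x_z < x_q`,
`y_z < ev e x_z` such that `ev e x_z ≤ ev h x_z` for all `h = (u, v) ∈ G` with `x_u < x_z < x_v`,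
`y_z < ev h x_z`. Injective: in (1), (2) two edges with a common endpoint and equal slope are
equal by GP; in (3) two edges `e ≠ f` with `ev e x_z = ev f x_z` have a common point at `x_z`, which
is not the abscissa of a common vertex (it is strictly inside both), so the lines are equal,
contradiction to GP (three of the endpoints are different and collinear).
Existence of `z` in case (3). Let `f = (p, r)` have the largest slope among the edges with left
endpoint `p` and slope less than that of `e`, and `g = (s, q)` the least slope among the edges with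
right endpoint `q` and slope larger than that of `e`. If `x_q < x_r` and `x_s < x_p`, then
`ev g x_p < y_p = ev f x_p` and `ev f x_q < y_q = ev g x_q`, so by (*) `f` and `g` have a common
vertex, but `p, r, s, q` are different. So `x_r < x_q` or `x_p < x_s` (equality is impossible:
`r = q` would give `f = e`). By reflection at the vertical axis let `x_r < x_q`. Let `Z` be the set
of all `z ∈ T` with `x_p < x_z ≤ x_r`, `y_z < ev e x_z`, `ev f x_z ≤ y_z`; `r ∈ Z`. Let `z ∈ Z` have
the least `x_z`. Suppose `h = (u, v) ∈ G`, `x_u < x_z < x_v`, `y_z < ev h x_z < ev e x_z`.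
(a) `x_p < x_u`: then `u ∈ Z`, a contradiction. Indeed if `ev e x_u ≤ y_u = ev h x_u`, then by (*)
`e`, `h` have a common vertex, which can only be `q = v`, at an abscissa which is not `t''`
(`t'' ≤ x_z < x_q`); so `ev e = ev h`, contradiction. If `y_u < ev f x_u`, then `f`, `h` have a
common point at `t'' < x_z`, hence (`ev h x_z > y_z ≥ ev f x_z`) a common vertex, which can only be
`r = v`, so `ev f = ev h`, contradiction. (b) `u = p`: the slope of `h` is strictly between those of
`f` and `e`, contradiction to the choice of `f`. (c) `x_u < x_p`: `ev h x_p ≠ y_p` by GP. If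
`ev h x_p > y_p = ev e x_p`, then `e`, `h` meet at some `t''` in `(x_p, x_z)`, the common vertex is
`q = v`, contradiction as before. If `ev h x_p < y_p = ev f x_p`, then `f`, `h` meet at `t''` in
`(x_p, x_z)`, the common vertex is `r = v`, contradiction. -/
def G_E3N : Prop := ∀ (n : ℕ) (x : Fin n → E), GP x → Function.Injective (fun i => (x i).1) →
  ∀ (G : Finset (Fin n × Fin n)) (T : Finset (Fin n)),
  (∀ e ∈ G, (x e.1).1 < (x e.2).1 ∧ e.1 ∈ T ∧ e.2 ∈ T) →
  (∀ e ∈ G, ∀ f ∈ G, NX (x e.1) (x e.2) (x f.1) (x f.2)) → G.card ≤ 3 * T.card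

open Classical in
/-- CRL. The crossing lemma: a geometric graph with `|F| ≥ 6 n` edges has at least
`|F|³ / (144 n²)` ordered pairs of crossing edges.
Proof. For `T ⊆ Fin n` let `F_T` be the set of edges with both endpoints in `T` and `X_T` the number
of ordered pairs of edges of `F_T` which are not NX (the relation is symmetric and irreflexive).
Removing one edge from every crossing pair gives a crossing-free graph, so by E3N
`|F_T| - X_T / 2 ≤ 3 |T|` (induction on `X_T`: remove the first edge of some crossing pair).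
Let `k = ⌊|F| / (6 n)⌋ ≥ 1`. Sum this over the `k` colour classes `T = c⁻¹(i)` of a map
`c : Fin n → Fin k` and over all `k^n` maps `c`: an edge has both endpoints in the same class for
`k^(n-1)` maps, and a crossing pair has four different endpoints (not NX), all in the same class for
`k^(n-3)` maps. So `|F| k^(n-1) - (X/2) k^(n-3) ≤ 3 n k^n`,
`X ≥ 2 k² (|F| - 3 n k) ≥ k² |F|` (as `6 n k ≤ |F|`), and `k ≥ |F| / (12 n)`. -/
def G_CRL : Prop := ∀ (n : ℕ) (x : Fin n → E), GP x → Function.Injective (fun i => (x i).1) →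
  ∀ F : Finset (Fin n × Fin n), (∀ e ∈ F, (x e.1).1 < (x e.2).1) → 6 * n ≤ F.card →
  F.card ^ 3 ≤ 144 * n ^ 2 *
    ((F ×ˢ F).filter fun z => ¬ NX (x z.1.1) (x z.1.2) (x z.2.1) (x z.2.2)).card

open Classical in
/-- ABS. If every set of `|F| ≥ 6 n` elements contains at least `|F|³ / (144 n²)` ordered pairs in
conflict, then there are at most `exp (C n)` conflict-free subsets.
Proof. Let `M = 12 n`, `x_k = min 1 (2 (M / k)^(4/3))` for `k ≥ 1`, `G(m) = ∏_{k=1}^m (1 + x_k)`.
Then `log G(m) ≤ ∑ x_k ≤ M + ∑_{k > M} 2 (M / k)^(4/3) ≤ M + 2 M ∫_1^∞ u^(-4/3) du = 7 M`.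
Claim: the number `N(F)` of conflict-free subsets of `F ⊆ F0` is at most `G(|F|)` (induction on
`|F| = m ≥ 1`; `G(0) = 1`). Choose `f ∈ F` in conflict with as many elements of `F` as possible, let
`d` be their number. The subsets which do not contain `f` are subsets of `F.erase f`, those with `f`
are `insert f` of subsets of `F` without `f` and the `d` elements in conflict with `f`:
`N(F) ≤ G(m-1) + G(m-1-d)` (`f` is not in conflict with itself). If `x_m = 1` (in particular if
`m ≤ M`), this is at most `2 G(m-1) = G(m)` (`G` is monotone). Otherwise `m > M`, and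
`d ≥ m² / (144 n²) = (m / M)² =: D`, `x_m = 2 D^(-2/3) < 1`, so `D > 2`. Since `x_k` is decreasing,
`G(m-1-d) ≤ G(m-1) (1 + x_m)^(-d)`, and `(1 + x_m)^d ≥ (1 + x_m)^D = ((1 + x_m)^(D/2))² ≥
(1 + D x_m / 2)² ≥ D² x_m² / 4 = D^(2/3) ≥ 1 / x_m` (Bernoulli, `D / 2 ≥ 1`). So
`N(F) ≤ G(m-1) (1 + x_m) = G(m)`. (Any other proof is welcome, the constant does not matter.) -/
def G_ABS : Prop := ∃ C : ℝ, 0 ≤ C ∧ ∀ (n : ℕ) (V : Type) (F0 : Finset V)
  (cr : V → V → Prop), 1 ≤ n → (∀ e f, cr e f → cr f e) → (∀ e, ¬ cr e e) →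
  (∀ F ⊆ F0, 6 * n ≤ F.card → F.card ^ 3 ≤ 144 * n ^ 2 *
    ((F ×ˢ F).filter fun z => cr z.1 z.2).card) →
  ((F0.powerset.filter fun G => ∀ e ∈ G, ∀ f ∈ G, ¬ cr e f).card : ℝ) ≤ Real.exp (C * n)

open Classical in
/-- CNT. The number of simple polygons through `n` points is at most `C^n`.
Proof. Apply ABS with `V = Fin n × Fin n`, `F0 = {e | x_{e.1} < x_{e.2}}`, `cr e f = ¬ NX ..`, and
CRL. A permutation `σ` with `Cl (x ∘ σ)` gives the crossing-free set of the pairs
`(σ i, σ (i+1))`, oriented from the left to the right; this set, `σ 0` and `σ 1` determine `σ`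
(`σ (i+2)` is the neighbour of `σ (i+1)` different from `σ i`). So the number of `σ` is at most
`n² exp (C n) ≤ exp ((C + 2) n)`. -/
def G_CNT : Prop := ∃ C : ℝ, 1 ≤ C ∧ ∀ (n : ℕ) (x : Fin n → E), 3 ≤ n → GP x →
  Function.Injective (fun i => (x i).1) →
  ((Finset.univ.filter fun σ : Equiv.Perm (Fin n) => Cl (finRotate n) (x ∘ σ)).card : ℝ) ≤ C ^ n

/-! ## Part II: measure -/

/-- MEA. Measurability.
Proof. (1) The set of all `(a, b, c, d)` such that the segments `ab` and `cd` meet is closed: it is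
the image of the closed set of all `((a, b, c, d), s, t)` with `s, t ∈ [0, 1]`,
`(1 - s) a + s b = (1 - t) c + t d` under the projection along the compact `[0, 1]²`; the other
parts of NX are equalities. Then (2), (3), (4) (finite intersections; `orient` is continuous).
(5) `Blk` by (1) and continuity, `D2` by (1), (2). -/
def G_MEA : Prop :=
  (∀ (α : Type) [MeasurableSpace α] (a b c d : α → E), Measurable a → Measurable b →
    Measurable c → Measurable d → MeasurableSet {z | NX (a z) (b z) (c z) (d z)}) ∧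
  (∀ (ι : Type) [Fintype ι], MeasurableSet {x : ι → E | GP x}) ∧
  (∀ (ι : Type) [Fintype ι] (S : ι → ι), MeasurableSet {x : ι → E | Cl S x}) ∧
  (∀ (U : Set E) (n : ℕ), MeasurableSet U →
    MeasurableSet {x : Fin n → E | (∀ i, x i ∈ U) ∧ Cl (finRotate n) x}) ∧
  (∀ (W U : Set E) (a : ℕ), MeasurableSet W → MeasurableSet U →
    MeasurableSet (Blk W U a) ∧ MeasurableSet (D2 W U a))

/-- NUL. General position holds almost everywhere.
Proof. (1) The set is a line: if `a.1 ≠ b.1` it is a graph over the first coordinate, every vertical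
section has one point (`Measure.prod_apply` / `measure_prod_null`), otherwise use the other
coordinate; or it is a proper affine subspace (`Measure.addHaar_affineSubspace`). (2) For different
`i, j, k` the set of all `x` with `orient (x i) (x j) (x k) = 0` is null: Fubini over `x k`
(`MeasurableEquiv.piEquivPiSubtypeProd` or `volume_preserving_pi..`), for `x i ≠ x j` by (1), and
`x i = x j` is null. (3) in the same way. -/
def G_NUL : Prop :=
  (∀ a b : E, a ≠ b → volume {p : E | orient a b p = 0} = 0) ∧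
  (∀ (ι : Type) [Fintype ι], ∀ᵐ x : ι → E, GP x) ∧
  (∀ (ι : Type) [Fintype ι], ∀ᵐ x : ι → E, Function.Injective fun i => (x i).1)

/-- OFF. The probability of the problem file.
Proof. `cond volume K` is the probability measure `(volume K)⁻¹ • volume.restrict K`, so the product
measure is `(volume K)⁻ⁿ` times the restriction of the volume to `{x | ∀ i, x i ∈ K}`
(`Measure.pi` of scaled and restricted measures: check on boxes, `Measure.pi_eq`; `Measure.restrict_pi_pi`).
For `x` with `GP x` (almost all `x`, NUL) and `n ≥ 3`: `x` is injective and `IsSimple x ↔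
Cl (finRotate n) x`. `→`: for `i = j` NX is trivial; for adjacent edges it is trivial; otherwise the
intersection is empty. `←`: for `i ≠ j` not adjacent the four endpoints are different points, so NX
says the edges are disjoint; for `j = finRotate n i` the three points `x i, x j, x (finRotate n j)`
are not collinear, hence the two segments have only `x j` in common; `i = finRotate n j` fails as
`n ≥ 3`. -/
def G_OFF : Prop := ∀ (n : ℕ) (K : Set E), 3 ≤ n → Body K →
  (n.factorial : ℝ) * simpleProb n K = w n K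

/-- AFF. Affine maps.
Proof. (1) `orient` is multiplied by `det L` (in coordinates; `L.det` is the determinant of the
matrix of `L` in the standard basis of `ℝ × ℝ`), segments are mapped onto segments
(`segment_image`-type lemmas), and the affine map is injective. (2) The set in `vc n (image)` is the
image of the set in `vc n U` under `x ↦ (L (x i) + t)_i` by (1). Its volume: the map
`A : p ↦ L p + t` satisfies `volume (A '' B) = |det L| volume B`
(`Measure.addHaar_image_linearMap`, translation invariance), that is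
`map A⁻¹ volume = |det L| • volume`; for the product use `Measure.pi_map_pi`-type lemmas or the
uniqueness of product measures (`Measure.pi_eq` with boxes), or the determinant of the block map.
(3) `ar` is multiplied by `|det L|`, so `w` is invariant (for `Body U`, where `0 < ar U < ∞`).
(4) For `rf` apply (1)..(3) with the linear map `rf` of determinant `-1`. -/
def G_AFF : Prop := ∀ (L : E →ₗ[ℝ] E) (t : E), LinearMap.det L ≠ 0 →
  (∀ (ι : Type) (S : ι → ι) (x : ι → E), Cl S (fun i => L (x i) + t) ↔ Cl S x) ∧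
  (∀ (n : ℕ) (U : Set E),
    vc n ((fun p => L p + t) '' U) = ENNReal.ofReal |LinearMap.det L| ^ n * vc n U) ∧
  (∀ U : Set E, ar ((fun p => L p + t) '' U) = |LinearMap.det L| * ar U) ∧
  (∀ (n : ℕ) (U : Set E), Body U → Body ((fun p => L p + t) '' U) ∧
    w n ((fun p => L p + t) '' U) = w n U)

/-- OP1. Many pairs of points of `W` see the last edge of the polygon.
Proof. Let `P = {x | (∀ i, x i ∈ U) ∧ Cl x}`, `volume P = vc a U < ∞`. For an index `i` let
`V_i(s)` be the set of all `x ∈ P` such that `s` sees `x i` and `x (finRotate i)` in the sense of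
VIS. By VIS and NUL (for the product measure: `(s, x) ↦ Fin.cons s x` is measure preserving),
for almost all `s ∈ W` the sets `V_i(s)` cover `P` up to a null set. The rotation
`x ↦ x ∘ (finRotate a)^k` preserves the volume (`volume_measurePreserving_piCongrLeft`) and `P`
and maps the sets `V_i(s)` to each other, so all have the same volume, in particular that of the set
`V(s) = {x ∈ P | Vis s x}` (the edge from `a - 1` to `0`). So `volume V(s) ≥ vc a U / a` for almost
all `s ∈ W`. Let `f(x) = volume {s ∈ W | Vis s x} ≤ volume W` for `x ∈ P`. Then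
`∫_P f = ∫_W volume V(s) ds ≥ volume W * vc a U / a` (Tonelli) and `∫_P f² = volume (D2 W U a)`.
With `m = volume W / a` we have `f² ≥ 2 m f - m²`, so
`∫_P f² ≥ 2 m ∫_P f - m² vc a U ≥ m² vc a U`. -/
def G_OP1 : Prop := ∀ (W U : Set E) (a : ℕ), 3 ≤ a → MeasurableSet W → MeasurableSet U →
  volume W ≠ ⊤ → volume U ≠ ⊤ → (∀ s ∈ W, ∀ p ∈ U, p.1 < s.1) →
  volume W ^ 2 * vc a U ≤ (a : ENNReal) ^ 2 * volume (D2 W U a)

/-- OP2. From seeing points to open paths.
Proof. `Φ (s, s', x) = Fin.cons s (Fin.snoc x s')` is measure preserving from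
`E × E × (Fin a → E)` onto `Fin (a + 2) → E` (`volume_preserving_piFinSuccAbove` or
`piCongrLeft`). Let `B` be the set of all `u : Fin (a + 2) → E` with `u 0, u last ∈ W`, inner points
in `U`, and `Pa u`; `A = Φ⁻¹(B)`. For almost all `(s, s', x) ∈ D2` (general position): by SWP with
`u = x 0`, `v = x (a - 1)`, either `s x_0` and `x_{a-1} s'` are disjoint, then `(s, s', x) ∈ A` (the
edges of `x` are NX by `Cl`, the stubs `s x_0`, `x_{a-1} s'` are NX to them by `Vis`), or `s' x_0` and
`x_{a-1} s` are disjoint, then `(s', s, x) ∈ A`. So `volume D2 ≤ 2 volume A = 2 volume B`. The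
reversal `u ↦ u ∘ Fin.rev` preserves the volume and `B`; for `u ∈ B` in general position `u` or
`u ∘ Fin.rev` satisfies the condition `Low` (if `(u 0).1 ≤ (u last).1`, look at the sign of
`orient (u a) (u last) (u 0)`, otherwise at the sign of `orient (u 1) (u 0) (u last)`; `a ≥ 2`). So
`volume B ≤ 2 volume (Blk W U a)`. -/
def G_OP2 : Prop := ∀ (W U : Set E) (a : ℕ), 3 ≤ a → MeasurableSet W → MeasurableSet U →
  volume (D2 W U a) ≤ 4 * volume (Blk W U a)

/-- IDX. The joined polygon as a polygon on `Fin`.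
Proof. Let `e : J a b ≃ Fin (a + b + 6)` with values `i`, `a + 2`, `a + 3 + j`, `a + b + 5` at
`inl (inl i)`, `inr 0`, `inl (inr j)`, `inr 1`. Then `e (succJ a b k) = finRotate _ (e k)`, and
`z ↦ z ∘ e` is a measure preserving measurable equivalence
(`volume_measurePreserving_piCongrLeft`), `MeasurePreserving.measure_preimage_equiv`. -/
def G_IDX : Prop := ∀ (a b : ℕ) (K : Set E),
  volume {z : J a b → E | (∀ j, z j ∈ K) ∧ Cl (succJ a b) z} = vc (a + b + 6) K

/-- GLU. The gluing inequality.
Proof. The map `w ↦ (fun i => rf (w i.rev))` preserves the volume of `Fin (b + 2) → E`, so the set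
`R` of all `w` whose image is in `Blk W U2 b` has the volume of `Blk W U2 b`. By JOI and NUL almost
all `z = Sum.elim (Sum.elim u w) ![g', g]` with `u ∈ Blk W U1 a`, `w ∈ R`, `g' ∈ bx 0 v δ`,
`g ∈ bx 0 (-v) δ` are in the set of IDX (`Blk` is monotone in `U`; the vertices are in `K`). The
volume of the set of these `z` is the product (`volume_measurePreserving_sumPiEquivProdPi`,
`Measure.prod_prod` holds for all sets, `Fin 2 → E` is `E × E` or use `Measure.pi_pi`), and
`volume (bx c1 c2 δ) = (2 δ)²`. -/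
def G_GLU : Prop := ∀ (δ v σ D : ℝ) (a b : ℕ) (K U1 U2 : Set E), 0 < δ → 4 * δ ≤ v → 0 ≤ σ →
  18 * δ * σ < v - 2 * δ → 17 * δ < D → 1 ≤ a → 1 ≤ b →
  (∀ p ∈ U1, p ∈ K ∧ Far δ σ D p) → (∀ p ∈ U2, rf p ∈ K ∧ Far δ σ D p) →
  bx (-(16 * δ)) 0 δ ⊆ K → bx (16 * δ) 0 δ ⊆ K → bx 0 v δ ⊆ K → bx 0 (-v) δ ⊆ K →
  volume (Blk (bx (-(16 * δ)) 0 δ) U1 a) * volume (Blk (bx (-(16 * δ)) 0 δ) U2 b) *
    ENNReal.ofReal ((2 * δ) ^ 4) ≤ vc (a + b + 6) K

/-- CUT. The cut inequality.
Proof. Put `δ = ρ d v / (512 Δ)`, `D = ρ d`, `σ = 4 Δ / (ρ d)`, `W = bx (-16δ) 0 δ`.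
`17 δ ≤ 17 ρ d / 512 < D / 2` and `δ ≤ v / 512` (as `v ≤ Δ`, `ρ ≤ 1`, `d ≤ Δ`). Let `U1` be the
image of `K1 = K ∩ {x ≤ 0}` under `p ↦ (1 - ρ) p + ρ zL`: it is contained in `K` (convex), its
points have abscissa `≤ ρ zL.1 ≤ -ρ d = -D`; for `s ∈ W` and `p ∈ U1`:
`s.1 - p.1 ≥ D - 17 δ ≥ D / 2`, `|s.2 - p.2| ≤ δ + Δ ≤ 2 Δ = σ D / 2`. So `Far δ σ D p`. `U2` is the
image of `rf K2`, `K2 = K ∩ {x ≥ 0}`, under the homothety with the centre `rf zR`; so `rf U2` is the
image of `K2` under the homothety with the centre `zR`. `18 δ σ = 72 v / 512 < v - 2 δ`. The squares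
are in `{|x| ≤ d, |y| ≤ 2 v} ⊆ K`. By AFF `vc a U1 = (1 - ρ)^(2a) vc a K1`,
`vc b U2 = (1 - ρ)^(2b) vc b K2`. By OP1, OP2 (`volume W = (2 δ)²`):
`(2 δ)^4 vc a U1 ≤ 4 a² volume (Blk W U1 a)`, the same for `b`, `U2`. Multiply and use GLU:
`(2 δ)^12 (1 - ρ)^(2(a+b)) vc a K1 vc b K2 ≤ 16 a² b² vc (a + b + 6) K`, `2 δ = ρ d v / (256 Δ)`.
All volumes are finite, pass to reals. -/
def G_CUT : Prop := ∀ (K : Set E) (d v Δ ρ : ℝ) (zL zR : E) (a b : ℕ), Convex ℝ K →
  IsCompact K → 0 < d → d ≤ Δ → 0 < v → v ≤ Δ → (∀ p ∈ K, |p.2| ≤ Δ) →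
  {p : E | |p.1| ≤ d ∧ |p.2| ≤ 2 * v} ⊆ K → zL ∈ K → zL.1 ≤ -d → zR ∈ K → d ≤ zR.1 →
  0 < ρ → ρ < 1 → 3 ≤ a → 3 ≤ b →
  (ρ * d * v / (256 * Δ)) ^ 12 * (1 - ρ) ^ (2 * (a + b)) * vr a (K ∩ {p | p.1 ≤ 0}) *
    vr b (K ∩ {p | 0 ≤ p.1}) ≤ 16 * (a : ℝ) ^ 2 * (b : ℝ) ^ 2 * vr (a + b + 6) K

/-- EXC. `1 ≤ w ≤ C^n`.
Proof. For a permutation `σ` the set `{x ∈ Kⁿ | Cl (x ∘ σ)}` has the volume `vc n K`
(`volume_measurePreserving_piCongrLeft`). So `n! vc n K = ∑_σ volume {x ∈ Kⁿ | Cl (x ∘ σ)} =
∫_{Kⁿ} #{σ | Cl (x ∘ σ)} dx` (MEA), and the number is between `1` (EXI) and `C^n` (CNT) for almost all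
`x` (NUL). `volume (Kⁿ) = (volume K)ⁿ`. -/
def G_EXC : Prop := ∃ C : ℝ, 1 ≤ C ∧ ∀ (n : ℕ) (K : Set E), 3 ≤ n → MeasurableSet K →
  volume K ≠ 0 → volume K ≠ ⊤ → 1 ≤ w n K ∧ w n K ≤ C ^ n

/-! ## Part III: the growth constant of triangles -/

/-- FEK. A Fekete type lemma.
Proof. For `s ≥ 9` let `f s = φ (s - 6) - C log s - B`, `B = 2 C log 5` (or any larger constant).
Claim: if `s, t ≥ 9`, `s ≤ 2 t`, `t ≤ 2 s`, then `f s + f t ≤ f (s + t)`. With `a = s - 6`,
`b = t - 6 ≥ 3`: `a ≤ 2 b + 6 ≤ 4 b`, `b ≤ 4 a`, so `φ(a + b + 6) ≥ φ a + φ b - C log (a + b)`, and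
`(s + t) - 6 = a + b + 6`; it remains `C log (a+b) + C log (s+t) + B ≤ C log s + C log t + 2 B`, true
as `s, t ≥ (s + t) / 3`, `2 C log 3 ≤ B`. Claim: for `m ≥ 9`, `0 ≤ r ≤ m`, `k ≥ 1`:
`f (k m + r) ≥ (k - 1) f m + f (m + r)`. Induction on `k`: `k = 1` is trivial; for `k ≥ 2` let
`k1 = k / 2 ≥ 1`, `k2 = k - k1 ∈ {k1, k1 + 1}`; the numbers `k1 m + r` and `k2 m` satisfy the
condition (`k1 m + r ≤ (k1 + 1) m ≤ 2 k2 m`, `k2 m ≤ (k1 + 1) m ≤ 2 k1 m`), so
`f (k m + r) ≥ f (k1 m + r) + f (k2 m) ≥ (k1 - 1) f m + f (m + r) + k2 f m`. Hence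
`liminf f n / n ≥ f m / m` for every `m ≥ 9` (write `n = k m + r`, `r < m`; `f (m + r)` is bounded for
`r < m`), and `f n / n ≤ C` is bounded, so `f n / n` converges to `sup f m / m`; `φ n / n` has the same
limit, which is `≥ 0`. -/
def G_FEK : Prop := ∀ (φ : ℕ → ℝ) (C : ℝ), 0 ≤ C → (∀ n : ℕ, 3 ≤ n → 0 ≤ φ n ∧ φ n ≤ C * n) →
  (∀ a b : ℕ, 3 ≤ a → 3 ≤ b → a ≤ 4 * b → b ≤ 4 * a →
    φ a + φ b - C * Real.log (a + b) ≤ φ (a + b + 6)) →
  ∃ g : ℝ, 0 ≤ g ∧ Tendsto (fun n : ℕ => φ n / n) atTop (𝓝 g)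

/-- MOD. The mode of the binomial distribution.
Proof. `N^N = ∑_k N.choose k a^k b^(N-k)`, `N = a + b`, and the largest of the `N + 1` terms is the
term `k = a` (the quotient of the terms `k + 1` and `k` is `(N - k) a / ((k + 1) b)`, which is `≥ 1`
for `k < a` and `≤ 1` for `k ≥ a`). -/
def G_MOD : Prop := ∀ a b : ℕ,
  (a + b) ^ (a + b) ≤ (a + b + 1) * ((a + b).choose a * a ^ a * b ^ b)

/-- BIN. The binomial terms near the mode are not exponentially small.
Proof. Let `N = a + b`, `q = a / N`. By MOD `C(N, a) ≥ N^N / ((N + 1) a^a b^b)`, so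
`C(N,a) θ^a (1-θ)^b ≥ (N+1)⁻¹ exp (-N (q log (q/θ) + (1-q) log ((1-q)/(1-θ))))`. For
`|q - θ| ≤ η` and small `η` the bracket is at most `ε / 2` (continuity, it vanishes for `q = θ`; or
`log y ≤ y - 1` gives the bound `(q-θ)²/(θ(1-θ))`), and `N + 1 ≤ exp (ε N / 2)` for large `N`. -/
def G_BIN : Prop := ∀ θ : ℝ, 0 < θ → θ < 1 → ∀ ε : ℝ, 0 < ε → ∃ η : ℝ, 0 < η ∧ ∃ N : ℕ,
  ∀ a b : ℕ, N ≤ a → N ≤ b → |a - θ * (a + b)| ≤ η * (a + b) →
    Real.exp (-ε * (a + b)) ≤ ((a + b).choose a : ℝ) * θ ^ a * (1 - θ) ^ b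

/-- TRE. Triangles.
Proof. (1) The affine map `A (x, y) = p + x (q - p) + y (r - p)` maps `T0` onto `tri p q r`
(`convexHull` of the image), its determinant is `orient p q r`; use AFF and
`volume T0 = 1 / 2`. (2) The vertical line through `(c, 0)` cuts the triangle `(0,0), (1,0), (c,1)`
into two triangles (in coordinates: `tri` is `{0 ≤ y, c y ≤ x, x ≤ 1 - (1 - c) y}`). -/
def G_TRE : Prop :=
  (∀ p q r : E, orient p q r ≠ 0 → Body (tri p q r) ∧ ar (tri p q r) = |orient p q r| / 2 ∧
    ∀ n, w n (tri p q r) = w n T0) ∧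
  (∀ c : ℝ, 0 < c → c < 1 →
    tri (0, 0) (1, 0) (c, 1) = {p | 0 ≤ p.2 ∧ c * p.2 ≤ p.1 ∧ p.1 ≤ 1 - (1 - c) * p.2} ∧
    tri (0, 0) (1, 0) (c, 1) ∩ {p | p.1 ≤ c} = tri (0, 0) (c, 0) (c, 1) ∧
    tri (0, 0) (1, 0) (c, 1) ∩ {p | c ≤ p.1} = tri (c, 0) (1, 0) (c, 1))

/-- TRW. The inequality for triangles.
Proof. Let `N = a + b`, `c = a / N ∈ [1/5, 4/5]`. Apply CUT to
`K = tri (0,0) (1,0) (c,1) - (c, 3/8)` (translate) with `d = 1/20`, `v = 3/16`, `Δ = 1`,
`ρ = 1 / N`, `zL = (-c, -3/8)`, `zR = (1 - c, -3/8)`. The box is in `K`: for abscissas in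
`[c - 1/20, c + 1/20]` the height of the triangle is at least `3/4`. `K1`, `K2` are triangles of
area `c / 2`, `(1 - c) / 2`, `K` has area `1 / 2` (TRE, translation by AFF). So with
`vr n (triangle of area A) = w n T0 * A^n / n!`:
`κ N^(-12) (1 - 1/N)^(2N) w a w b (c/2)^a ((1-c)/2)^b / (a! b!) ≤
16 a² b² w (N+6) (1/2)^(N+6) / (N+6)!`, `κ = (3 / (320 * 256))^12`; `(1 - 1/N)^(2N) ≥ 1/16`;
`(N+6)! / (a! b!) ≥ C(N, a)`, `C(N,a) c^a (1-c)^b ≥ 1 / (N+1)` (MOD). So
`w a w b ≤ const N^17 w (N+6)`, and the constant is at most a power of `N ≥ 6`. -/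
def G_TRW : Prop := ∃ C : ℕ, ∀ a b : ℕ, 3 ≤ a → 3 ≤ b → a ≤ 4 * b → b ≤ 4 * a →
  w a T0 * w b T0 ≤ ((a : ℝ) + b) ^ C * w (a + b + 6) T0

/-- TLM. The growth constant of triangles.
Proof. `φ n = log (w n T0)`; EXC (`0 ≤ φ n ≤ n log C`), TRW, FEK. Then `LB`, `UB` for `T0` from the
limit, and for all triangles by TRE. -/
def G_TLM : Prop := ∃ g : ℝ, 0 ≤ g ∧ ∀ p q r : E, orient p q r ≠ 0 →
  LB (tri p q r) g ∧ UB (tri p q r) g

/-! ## Part IV: universality -/

/-- GCL. The cut inequality for a fixed body and an arbitrary line, with subexponential loss.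
Proof. Let `K1 = K ∩ HL α β γ`, `K2 = K ∩ HR α β γ`, `θ = ar K1 / ar K ∈ (0, 1)`, `1 - θ = ar K2 / ar K`
(the line is a null set, `(α, β) ≠ 0`). Step 1. Choose a linear bijection `L` with
`(L p).1 = α p.1 + β p.2` (for instance `(L p).2 = -β p.1 + α p.2`, determinant `α² + β²`); by AFF
(with translation by `(-γ, 0)`) we may assume that the line is `{x = 0}`. Choose interior points
`z1 ∈ K1`, `z2 ∈ K2` with `z1.1 < 0 < z2.1`; they can be chosen in the interior of `K`, the segment
meets the line in an interior point `(0, y0)` of `K`; translate so that `y0 = 0` (AFF). Choose `Δ`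
large with `K ⊆ {|y| ≤ Δ}`, `d`, `v` small such that the box is in `K`, `d ≤ -z1.1`, `d ≤ z2.1`,
`d, v ≤ Δ`. Step 2: given `ε > 0` choose `ρ` with `(1 - ρ)² ≥ exp (-ε/3)`. CUT gives
`κ (1-ρ)^(2(a+b)) vr a K1 vr b K2 ≤ 16 a² b² vr (a+b+6) K` with `κ > 0` independent of `a, b`.
Multiply by `(a+b+6)! / (ar K)^(a+b+6)`, use `(a+b+6)! ≥ (a+b)!`:
`w (a+b+6) K ≥ κ (ar K)⁻⁶ (1-ρ)^(2(a+b)) (16 a² b²)⁻¹ C(a+b, a) θ^a (1-θ)^b w a K1 w b K2`, and
BIN (with `ε / 3`); `κ (ar K)⁻⁶ / (16 a² b²) ≥ exp (-ε (a+b) / 3)` for large `a, b`. -/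
def G_GCL : Prop := ∀ (K : Set E) (α β γ : ℝ), Body K → (α ≠ 0 ∨ β ≠ 0) →
  Body (K ∩ HL α β γ) → Body (K ∩ HR α β γ) →
  ar (K ∩ HL α β γ) + ar (K ∩ HR α β γ) = ar K ∧
  ∀ ε : ℝ, 0 < ε → ∃ η : ℝ, 0 < η ∧ ∃ N : ℕ, ∀ a b : ℕ, N ≤ a → N ≤ b →
    |a - ar (K ∩ HL α β γ) / ar K * (a + b)| ≤ η * (a + b) →
    w a (K ∩ HL α β γ) * w b (K ∩ HR α β γ) * Real.exp (-ε * (a + b)) ≤ w (a + b + 6) K

/-- DEG. Degenerate cuts.
Proof. `K1 = K ∩ HL` is convex and compact; if it is not a body, its interior is empty, so its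
volume is `0` (a convex set with empty interior is a null set: `Convex.addHaar_frontier`, the set is
contained in the closure of its interior or in its frontier). Then `K` and `K2 = K ∩ HR` differ by a
null set (`K = K1 ∪ K2`), so `vc n K = vc n K2` and `ar K = ar K2`; `K2` has positive volume, hence
nonempty interior. The same with the sides exchanged. -/
def G_DEG : Prop := ∀ (K : Set E) (α β γ : ℝ), Body K →
  (¬ Body (K ∩ HL α β γ) → Body (K ∩ HR α β γ) ∧ ar (K ∩ HL α β γ) = 0 ∧
    ar (K ∩ HR α β γ) = ar K ∧ ∀ n, w n (K ∩ HR α β γ) = w n K) ∧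
  (¬ Body (K ∩ HR α β γ) → Body (K ∩ HL α β γ) ∧ ar (K ∩ HR α β γ) = 0 ∧
    ar (K ∩ HL α β γ) = ar K ∧ ∀ n, w n (K ∩ HL α β γ) = w n K)

/-- CLB. The lower growth rate and cuts.
Proof. Put `A = ar K`, `A1 = ar K1`, `A2 = ar K2`. If `K2` is not a body, then by DEG `A1 = A` and
`w n K1 = w n K`, clear. Otherwise `A1 + A2 = A` (GCL). Given `ε > 0` apply GCL with `ε / 3`, and
`LB` for `K1`, `K2` with `ε / 3`. For large `n` let `a = ⌊θ (n - 6)⌋`, `b = n - 6 - a`, `θ = A1 / A`. Then
`|a - θ (a + b)| ≤ 1 ≤ η (a + b)`, `a, b ≥ N`, and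
`log (w n K) ≥ (β + x/A1 - ε/3) a + (β - ε/3) b - (ε/3)(a+b) = β (n-6) + (x/A1) a - (2ε/3)(n-6)`,
`(x/A1) a ≥ (x/A1) (θ (n-6) - 1) = (x/A) (n-6) - x/A1`. This is `≥ (β + x/A - ε) n` for large `n`. -/
def G_CLB : Prop := ∀ (K : Set E) (α β' γ β x : ℝ), Body K → (α ≠ 0 ∨ β' ≠ 0) →
  Body (K ∩ HL α β' γ) → 0 ≤ x → LB (K ∩ HL α β' γ) (β + x / ar (K ∩ HL α β' γ)) →
  (Body (K ∩ HR α β' γ) → LB (K ∩ HR α β' γ) β) → LB K (β + x / ar K)

/-- CUB. The upper growth rate and cuts.
Proof. If `K2` is not a body use DEG. Otherwise suppose that for some `ε > 0` there are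
arbitrarily large `a` with `w a K1 > exp ((g + ε) a)`. For such `a` let `b = ⌊a A2 / A1⌋`; then
`|a - θ (a + b)| ≤ 1` (`θ (a + b) - a = θ b - (1 - θ) a`, `b ≤ a (1-θ)/θ < b + 1`), and GCL with
`ε' > 0`, `LB K2` with `ε'` give
`w (a+b+6) K ≥ exp ((g + ε) a + (g - ε') b - ε' (a + b))`, while `UB K` gives
`w (a+b+6) K ≤ exp ((g + ε') (a + b + 6))`. As `a ≥ θ (a + b) - 1`, this is a contradiction for
`ε' = θ ε / 8` and large `a`. -/
def G_CUB : Prop := ∀ (K : Set E) (α β γ g : ℝ), Body K → (α ≠ 0 ∨ β ≠ 0) →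
  Body (K ∩ HL α β γ) → UB K g → (Body (K ∩ HR α β γ) → LB (K ∩ HR α β γ) g) →
  UB (K ∩ HL α β γ) g

/-- TRI. A large inscribed triangle.
Proof. Let `p, q, r ∈ K` maximise `|orient p q r|` (compactness); it is positive since `K` has
interior points; let `orient p q r > 0` (exchange `q`, `r`). For every `z ∈ K` the three numbers
`orient z q r`, `orient p z r`, `orient p q z` are at most `T = orient p q r` in absolute value and
their sum is `T`. So `K` is contained in the set of all `z` with `orient z q r ≤ T`,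
`orient p z r ≤ T`, `orient p q z ≤ T`, which is the triangle with the vertices `q + r - p`,
`p + r - q`, `p + q - r` of area `4 T / 2`. -/
def G_TRI : Prop := ∀ K : Set E, Body K → ∃ p q r : E, orient p q r ≠ 0 ∧ tri p q r ⊆ K ∧
  ar K ≤ 4 * ar (tri p q r)

/-- THL. A triangle is the intersection of three half-planes.
Proof. Let `orient p q r > 0` (otherwise exchange `q`, `r`; the set `tri` does not change):
`z ∈ tri p q r ↔ 0 ≤ orient p q z ∧ 0 ≤ orient q r z ∧ 0 ≤ orient r p z` (barycentric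
coordinates, the sum of the three numbers is `orient p q r`); `orient p q z` is an affine function
of `z` with nonzero linear part. -/
def G_THL : Prop := ∀ p q r : E, orient p q r ≠ 0 → ∃ α β γ : Fin 3 → ℝ,
  (∀ i, α i ≠ 0 ∨ β i ≠ 0) ∧
  tri p q r = HL (α 0) (β 0) (γ 0) ∩ HL (α 1) (β 1) (γ 1) ∩ HL (α 2) (β 2) (γ 2)

/-- OUT. Approximation from outside.
Proof. Some open set `U ⊇ K` has `volume U ≤ (1 + ε) volume K` (outer regularity). Let `T = tri p q r`
be a large triangle containing `K`. For every `z ∈ T \ U` there is a closed half-plane `HL α β γ`,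
`(α, β) ≠ 0`, containing `K` but not `z` (`geometric_hahn_banach_compact_point`-type). The
complements of these half-planes are open and cover the compact set `T \ U`; a finite number
suffices; the intersection of `T` with these half-planes is in `U`. -/
def G_OUT : Prop := ∀ K : Set E, Body K → ∀ ε : ℝ, 0 < ε → ∃ (p q r : E) (m : ℕ)
  (α β γ : Fin m → ℝ), orient p q r ≠ 0 ∧ K ⊆ tri p q r ∧ (∀ i, α i ≠ 0 ∨ β i ≠ 0) ∧
  (∀ i, K ⊆ HL (α i) (β i) (γ i)) ∧
  ar (tri p q r ∩ ⋂ i, HL (α i) (β i) (γ i)) ≤ (1 + ε) * ar K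

/-- ULB. The lower bound for all bodies.
Proof. Step: suppose `0 ≤ β ≤ g` and `LB K β` for all bodies `K`; then `LB K (β + (g - β) / 4)` for all
bodies `K`. Take `T = tri p q r ⊆ K` from TRI and the half-planes `H_1, H_2, H_3` from THL,
`K_0 = K`, `K_j = K ∩ H_1 ∩ .. ∩ H_j`, `K_3 = T` (all contain `T`, so they are bodies). Let
`x = (g - β) ar T`. `LB T g` is `LB K_3 (β + x / ar K_3)`. By CLB (the other part of `K_j` is a body or
not; if it is a body it satisfies `LB β`) we get `LB K_2 (β + x / ar K_2)`, .., `LB K (β + x / ar K)`,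
and `x / ar K ≥ (g - β) / 4`. Start with `β = 0` (`LB K 0` since `w n K ≥ 1`, EXC). After `k` steps
`β_k = g - (3/4)^k g`. So `LB K (g - ε)` for all `ε > 0`, hence `LB K g`. -/
def G_ULB : Prop := ∀ g : ℝ, 0 ≤ g → (∀ p q r : E, orient p q r ≠ 0 → LB (tri p q r) g) →
  ∀ K : Set E, Body K → LB K g

/-- UUB. The upper bound for all bodies.
Proof. Given `ε > 0` take `T`, `H_1, .., H_m` from OUT, `Q_j = T ∩ H_1 ∩ .. ∩ H_j ⊇ K`, all bodies. By
CUB (`UB Q_j g`, and the removed part satisfies `LB g` if it is a body) `UB Q_{j+1} g`. So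
`UB Q_m g`. `K ⊆ Q_m` gives `vc n K ≤ vc n Q_m`, so
`w n K ≤ (ar Q_m / ar K)^n w n Q_m ≤ (1 + ε)^n w n Q_m`. Hence `UB K (g + log (1 + ε))` for all
`ε > 0`, so `UB K g`. -/
def G_UUB : Prop := ∀ g : ℝ, (∀ p q r : E, orient p q r ≠ 0 → UB (tri p q r) g) →
  (∀ K : Set E, Body K → LB K g) → ∀ K : Set E, Body K → UB K g

/-! ## Part V: the growth constant is larger than one -/

/-- MO1. Monotone polygons.
Proof. The permutation `σ = monoPerm τ` sorts the (different) keys: first the points of the lower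
chain (`τ i = false`, this includes `0` and `n - 1`) in increasing order, then the points with
`τ i = true` in decreasing order. So two cyclically consecutive points of the polygon are
consecutive on the lower chain, or consecutive on the upper chain (`0`, the points with
`τ i = true`, `n - 1`). Edges of the same chain: their abscissas have at most a common endpoint. Let
`f`, `g` be the piecewise linear functions of the lower and the upper chain. At an inner point `k`
with `τ k = true` we have `g = y k` and `f` is a convex combination of the heights of the neighbours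
`i < k < j` on the lower chain, so `f < g`; in the same way if `τ k = false`. `g - f` is affine
between two consecutive points and `0` at the two ends, so (as `n ≥ 3`) `f < g` at all abscissas
strictly between the two ends. So an edge of the lower chain and an edge of the upper chain can
only meet in the first or the last point, which is then a common endpoint (it is a vertex of the
polygon and the only point with this abscissa). Second part: `σ = monoPerm τ` determines `τ`:
`τ i = false` if and only if `σ⁻¹ i ≤ σ⁻¹ (n - 1)`. -/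
def G_MO1 : Prop := ∀ n : ℕ, 3 ≤ n →
  (∀ (τ : Fin n → Bool) (x : Fin n → E), StrictMono (fun i => (x i).1) → GP x →
    NC τ (fun i => (x i).2) → Cl (finRotate n) (x ∘ monoPerm τ)) ∧
  (∀ τ τ' : Fin n → Bool, (∀ i : Fin n, i.val = 0 ∨ i.val + 1 = n → τ i = false ∧ τ' i = false) →
    monoPerm τ = monoPerm τ' → τ = τ')

/-- MO2. The volume of the set of monotone polygons.
Proof. For every `τ` let `P τ` be the set of all `x : Fin n → E` in `Q0ⁿ` such that `z = x ∘ (monoPerm τ)⁻¹`
has strictly increasing abscissas and heights in `A τ`. Almost all `x ∈ P τ` satisfy `Cl x` by MO1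
(`x = z ∘ monoPerm τ`), and for `τ ≠ τ'` with nonempty sets the sets `P τ`, `P τ'` are disjoint: the
permutation which sorts the abscissas is unique, and `monoPerm τ ≠ monoPerm τ'`. The volume of
`P τ` is that of the set of `z`, that is `volume (A τ)` times the volume of the set of increasing
vectors of `[0,1]ⁿ` (`volume_measurePreserving_arrowProdEquivProdArrow` or similar), which is
`1 / n!` (the `n!` permuted sets are disjoint and cover `[0,1]ⁿ` up to a null set). -/
def G_MO2 : Prop := ∀ (n : ℕ) (A : (Fin n → Bool) → Set (Fin n → ℝ)), 3 ≤ n →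
  (∀ τ, MeasurableSet (A τ)) → (∀ τ, ∀ y ∈ A τ, (∀ i, 0 ≤ y i ∧ y i ≤ 1) ∧ NC τ y) →
  ∑ τ : Fin n → Bool, volume (A τ) ≤ (n.factorial : ENNReal) * vc n Q0

/-- MO3. Exponentially many monotone polygons.
Proof. Let `n = 5 k + 6`. The positions: `0` and `n - 1` (ends, height in `(1/4, 3/4)`, `τ = false`),
`1` and `n - 2` (height `< 1/4`, `τ = false`), `2` and `n - 3` (height `> 3/4`, `τ = true`), and `k`
blocks of five consecutive positions `3, .., 5 k + 2`. In a block we allow the 32 standard patterns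
`t ∈ Bool⁵` (heights `> 1/2` where `t = true`, `< 1/2` where `t = false`) and in addition for the
pattern `t = (true, false, true, false, true)` the heights `z` with
`z1 > 1/2, z2 < 1/4, 1/4 < z3 < 1/2, z4 < 1/4, z5 > 1/2`. These 33 boxes of a block have the volumes
`2⁻⁵` (32 times) and `2⁻⁸`; the two boxes with the same pattern are disjoint. For a word
`ω ∈ (Fin 33)^k` let `B ω ⊆ [0,1]ⁿ` be the product box and `τ ω` its pattern, `A τ = ⋃ {B ω | τ ω = τ}`,
a disjoint union; so `∑_τ volume (A τ) = ∑_ω volume (B ω) = (1/2)² (1/4)⁴ (1 + 1/256)^k`. `NC` holds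
on `B ω`: a point with `τ = true` has height `> 3/4`, `> 1/2`, or is the middle point of an
additional block (height `> 1/4`, its neighbours on the lower chain are the points 2 and 4 of its
block with heights `< 1/4`). All points of the lower chain have heights `< 1/2` except for the two
ends (height `< 3/4`); an end is a neighbour only of position 2 (`n - 3`), with height `> 3/4`: the
positions `1`, `n - 2` are on the lower chain. In the same way for `τ = false`: its neighbours on
the upper chain have heights `> 1/2`, except if it is the point 2 or 4 of an additional block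
(height `< 1/4`, neighbours `> 1/4`); the positions `1`, `n - 2` (height `< 1/4`) have the ends
(height `> 1/4`) and `2`, `n - 3` as neighbours; for other points the ends are not neighbours on the
upper chain as `2`, `n - 3` are on it. By MO2 `(1/2)² (1/4)⁴ (257/256)^k ≤ n! vc n Q0 = w n Q0`. -/
def G_MO3 : Prop := ∃ κ : ℝ, 0 < κ ∧ ∀ N : ℕ, ∃ n ≥ N, Real.exp (κ * n) ≤ w n Q0

/-! ## The theorem -/

/-- The main theorem (assembly by helper26). -/
def G_MAIN : Prop := ∃ γ : ℝ, 1 < γ ∧ ∀ K : Set (ℝ × ℝ), Convex ℝ K → IsCompact K →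
  (interior K).Nonempty →
  Tendsto (fun n : ℕ => ((n.factorial : ℝ) * simpleProb n K) ^ (1 / (n : ℝ))) atTop (𝓝 γ)

end RP
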