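import Pool.Agent.Helper26.RP.Goals

/-!
# MP_105b7b_pr: assembly
-/

noncomputable section

namespace RP

open MeasureTheory Filter Topology

theorem body_Q0 : Body Q0 := by
  have h : Q0 = Set.Icc ((0 : ℝ), (0 : ℝ)) (1, 1) := by
    ext p
    simp only [Q0, Set.mem_setOf_eq, Set.mem_Icc, Prod.le_def]
    tauto
  refine ⟨?_, ?_, ?_⟩
  · rw [h]
    exact convex_Icc _ _
  · rw [h]
    exact isCompact_Icc
  · refine ⟨((1 / 2 : ℝ), (1 / 2 : ℝ)), ?_⟩
    rw [mem_interior]
    refine ⟨Set.Ioo (0 : ℝ) 1 ×ˢ Set.Ioo (0 : ℝ) 1, ?_, isOpen_Ioo.prod isOpen_Ioo, ?_⟩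
    · rintro p ⟨hp, hq⟩
      exact ⟨hp.1.le, hp.2.le, hq.1.le, hq.2.le⟩
    · refine ⟨⟨?_, ?_⟩, ?_, ?_⟩ <;> norm_num

theorem limit_of_bounds {f : ℕ → ℝ} {g : ℝ}
    (hl : ∀ ε : ℝ, 0 < ε → ∀ᶠ n : ℕ in atTop, Real.exp ((g - ε) * n) ≤ f n)
    (hu : ∀ ε : ℝ, 0 < ε → ∀ᶠ n : ℕ in atTop, f n ≤ Real.exp ((g + ε) * n)) :
    Tendsto (fun n : ℕ => f n ^ (1 / (n : ℝ))) atTop (𝓝 (Real.exp g)) := by
  have hroot : ∀ (c : ℝ) (n : ℕ), 1 ≤ n → Real.exp (c * n) ^ (1 / (n : ℝ)) = Real.exp c := by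
    intro c n hn
    have hn' : (n : ℝ) ≠ 0 := by positivity
    rw [← Real.exp_mul]
    congr 1
    field_simp
  rw [tendsto_order]
  constructor
  · intro a ha
    rcases le_or_gt a 0 with h0 | h0
    · filter_upwards [hl 1 one_pos] with n hn
      have : 0 < f n := lt_of_lt_of_le (Real.exp_pos _) hn
      exact lt_of_le_of_lt h0 (Real.rpow_pos_of_pos this _)
    · have hlog : Real.log a < g := by
        have := Real.log_lt_log h0 ha
        rwa [Real.log_exp] at this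
      filter_upwards [hl ((g - Real.log a) / 2) (by linarith), eventually_ge_atTop 1] with n hn h1
      have h2 : Real.exp ((g - (g - Real.log a) / 2) * n) ^ (1 / (n : ℝ)) ≤ f n ^ (1 / (n : ℝ)) :=
        Real.rpow_le_rpow (Real.exp_pos _).le hn (by positivity)
      rw [hroot _ n h1] at h2
      refine lt_of_lt_of_le ?_ h2
      calc a = Real.exp (Real.log a) := (Real.exp_log h0).symm
        _ < Real.exp (g - (g - Real.log a) / 2) := Real.exp_lt_exp.2 (by linarith)
  · intro b hb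
    have h0 : 0 < b := lt_trans (Real.exp_pos _) hb
    have hlog : g < Real.log b := by
      have := Real.log_lt_log (Real.exp_pos _) hb
      rwa [Real.log_exp] at this
    filter_upwards [hu ((Real.log b - g) / 2) (by linarith), hl 1 one_pos,
      eventually_ge_atTop 1] with n hn hp h1
    have h2 : f n ^ (1 / (n : ℝ)) ≤ Real.exp ((g + (Real.log b - g) / 2) * n) ^ (1 / (n : ℝ)) :=
      Real.rpow_le_rpow (lt_of_lt_of_le (Real.exp_pos _) hp).le hn (by positivity)
    rw [hroot _ n h1] at h2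
    refine lt_of_le_of_lt h2 ?_
    calc Real.exp (g + (Real.log b - g) / 2) < Real.exp (Real.log b) :=
          Real.exp_lt_exp.2 (by linarith)
      _ = b := Real.exp_log h0

theorem main (hoff : G_OFF) (htlm : G_TLM) (hulb : G_ULB) (huub : G_UUB) (hmo3 : G_MO3) :
    G_MAIN := by
  obtain ⟨g, hg0, hg⟩ := htlm
  have hLB : ∀ K : Set E, Body K → LB K g := hulb g hg0 fun p q r h => (hg p q r h).1
  have hUB : ∀ K : Set E, Body K → UB K g := huub g (fun p q r h => (hg p q r h).2) hLB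
  obtain ⟨κ, hκ, hinf⟩ := hmo3
  have hgpos : 0 < g := by
    have h1 := hUB Q0 body_Q0 (κ / 2) (by positivity)
    rw [eventually_atTop] at h1
    obtain ⟨N, hN⟩ := h1
    obtain ⟨n, hn, hn2⟩ := hinf (max N 1)
    have h2 := hn2.trans (hN n (le_trans (le_max_left _ _) hn))
    rw [Real.exp_le_exp] at h2
    have h3 : (0 : ℝ) < n := by
      have : 1 ≤ n := le_trans (le_max_right _ _) hn
      exact_mod_cast this
    have h4 : κ ≤ g + κ / 2 := le_of_mul_le_mul_right h2 h3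
    linarith
  refine ⟨Real.exp g, Real.one_lt_exp_iff.2 hgpos, ?_⟩
  intro K h1 h2 h3
  have hK : Body K := ⟨h1, h2, h3⟩
  have hw : Tendsto (fun n : ℕ => w n K ^ (1 / (n : ℝ))) atTop (𝓝 (Real.exp g)) :=
    limit_of_bounds (hLB K hK) (hUB K hK)
  refine hw.congr' ?_
  filter_upwards [eventually_ge_atTop 3] with n hn
  rw [hoff n K hn hK]

end RP
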