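import Pool.Agent.Helper26.RP.Goals

/-!
# MP_105b7b_pr: packet SWP
-/

noncomputable section

namespace RP.PkSWP

theorem seg_coord {a b p : E} (h : p ∈ segment ℝ a b) :
    ∃ s t : ℝ, 0 ≤ s ∧ 0 ≤ t ∧ s + t = 1 ∧ p.1 = s * a.1 + t * b.1 ∧ p.2 = s * a.2 + t * b.2 := by
  obtain ⟨s, t, hs, ht, hst, rfl⟩ := h
  exact ⟨s, t, hs, ht, hst, by simp, by simp⟩

/-- If the segments `ab`, `cd` meet, the orientations of `c` and `d` have product at most zero. -/
theorem prod_nonpos {a b c d p : E} (h1 : p ∈ segment ℝ a b) (h2 : p ∈ segment ℝ c d) :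
    orient a b c * orient a b d ≤ 0 := by
  obtain ⟨s, t, hs, ht, hst, e1, e2⟩ := seg_coord h1
  obtain ⟨s', t', hs', ht', hst', e3, e4⟩ := seg_coord h2
  have hs1 : s = 1 - t := by linarith
  have hz : orient a b p = 0 := by
    unfold orient
    rw [e1, e2, hs1]
    ring
  have hs2 : s' = 1 - t' := by linarith
  have hz2 : s' * orient a b c + t' * orient a b d = 0 := by
    rw [← hz]
    unfold orient
    rw [e3, e4, hs2]
    ring
  by_contra hc
  rw [not_le] at hc
  rcases pos_and_pos_or_neg_and_neg_of_mul_pos hc with ⟨h3, h4⟩ | ⟨h3, h4⟩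
  · have h5 : s' = 0 ∧ t' = 0 := by
      have k1 := mul_nonneg hs' h3.le
      have k2 := mul_nonneg ht' h4.le
      have k3 : s' * orient a b c = 0 := by linarith
      have k4 : t' * orient a b d = 0 := by linarith
      exact ⟨(mul_eq_zero.1 k3).resolve_right h3.ne', (mul_eq_zero.1 k4).resolve_right h4.ne'⟩
    linarith [h5.1, h5.2]
  · have h5 : s' = 0 ∧ t' = 0 := by
      have k1 := mul_nonpos_of_nonneg_of_nonpos hs' h3.le
      have k2 := mul_nonpos_of_nonneg_of_nonpos ht' h4.le
      have k3 : s' * orient a b c = 0 := by linarith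
      have k4 : t' * orient a b d = 0 := by linarith
      exact ⟨(mul_eq_zero.1 k3).resolve_right h3.ne, (mul_eq_zero.1 k4).resolve_right h4.ne⟩
    linarith [h5.1, h5.2]

theorem swp : G_SWP := by
  intro s s' u v hGP
  by_contra hc
  rw [not_or, Set.not_disjoint_iff, Set.not_disjoint_iff] at hc
  obtain ⟨⟨p, hp1, hp2⟩, q, hq1, hq2⟩ := hc
  have o1 : orient s u v ≠ 0 := hGP 0 2 3 (by decide) (by decide) (by decide)
  have o2 : orient s u s' ≠ 0 := hGP 0 2 1 (by decide) (by decide) (by decide)
  have o3 : orient s v s' ≠ 0 := hGP 0 3 1 (by decide) (by decide) (by decide)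
  have o4 : orient u v s' ≠ 0 := hGP 2 3 1 (by decide) (by decide) (by decide)
  have p1 := prod_nonpos hp1 hp2
  have p2 := prod_nonpos hp2 hp1
  have p3 := prod_nonpos hq1 hq2
  have p4 := prod_nonpos hq2 hq1
  have i1 : orient v s' s = orient s v s' := by unfold orient; ring
  have i2 : orient v s' u = orient u v s' := by unfold orient; ring
  have i3 : orient s' u v = orient u v s' := by unfold orient; ring
  have i4 : orient s' u s = -orient s u s' := by unfold orient; ring
  have i5 : orient v s s' = -orient s v s' := by unfold orient; ring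
  have i6 : orient v s u = orient s u v := by unfold orient; ring
  have hid : orient s u v - orient s u s' + orient s v s' - orient u v s' = 0 := by
    unfold orient
    ring
  rw [i1, i2] at p2
  rw [i3, i4] at p3
  rw [i5, i6] at p4
  set A := orient s u v
  set B := orient s u s'
  set C := orient s v s'
  set D := orient u v s'
  rcases lt_or_gt_of_ne o1 with h1 | h1 <;> rcases lt_or_gt_of_ne o2 with h2 | h2 <;>
    rcases lt_or_gt_of_ne o3 with h3 | h3 <;> rcases lt_or_gt_of_ne o4 with h4 | h4 <;>
    nlinarith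

end RP.PkSWP
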