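import Pool.Agent.Helper26.RP.Goals

/-!
# MP_105b7b_pr: packet TOP
-/

noncomputable section

namespace RP.PkTOP

theorem top : G_TOP := by
  classical
  intro V F l r ev
  induction F using Finset.strongInduction with
  | H F ih =>
    intro hne hlr hcons
    obtain ⟨e, he, hmin⟩ := Finset.exists_min_image F r hne
    by_cases hE : (F.erase e).Nonempty
    · obtain ⟨e', he', htop⟩ := ih (F.erase e) (Finset.erase_ssubset he) hE
        (fun f hf => hlr f (Finset.mem_of_mem_erase hf))
        (fun f hf g hg => hcons f (Finset.mem_of_mem_erase hf) g (Finset.mem_of_mem_erase hg))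
      have he'F := Finset.mem_of_mem_erase he'
      by_cases hc : ∃ t, l e' < t ∧ t < r e' ∧ l e < t ∧ t < r e ∧ ev e' t < ev e t
      · obtain ⟨t1, a1, a2, a3, a4, a5⟩ := hc
        refine ⟨e, he, ?_⟩
        intro f hf t2 b1 b2 b3 b4 b5
        have hfe : f ≠ e := fun h => by
          rw [h] at b5
          exact lt_irrefl _ b5
        obtain ⟨t, ht1, ht2⟩ := exists_between
          (show max (l e) (max (l e') (l f)) < r e from
            max_lt (hlr e he) (max_lt (a1.trans a4) (b3.trans b2)))
        have c1 : l e < t := lt_of_le_of_lt (le_max_left _ _) ht1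
        have c2 : l e' < t := lt_of_le_of_lt ((le_max_left _ _).trans (le_max_right _ _)) ht1
        have c3 : l f < t := lt_of_le_of_lt ((le_max_right _ _).trans (le_max_right _ _)) ht1
        have d2 : t < r e' := lt_of_lt_of_le ht2 (hmin e' he'F)
        have d3 : t < r f := lt_of_lt_of_le ht2 (hmin f hf)
        have k1 := hcons e' he'F e he t1 t a1 a2 a3 a4 c2 d2 c1 ht2 a5
        have k2 := hcons e he f hf t2 t b1 b2 b3 b4 c1 ht2 c3 d3 b5
        exact htop f (Finset.mem_erase.2 ⟨hfe, hf⟩) t c2 d2 c3 d3 (k1.trans k2)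
      · push Not at hc
        refine ⟨e', he'F, ?_⟩
        intro f hf t b1 b2 b3 b4 b5
        by_cases hfe : f = e
        · rw [hfe] at b3 b4 b5
          exact absurd b5 (not_lt.2 (hc t b1 b2 b3 b4))
        · exact htop f (Finset.mem_erase.2 ⟨hfe, hf⟩) t b1 b2 b3 b4 b5
    · refine ⟨e, he, ?_⟩
      intro f hf t _ _ _ _ b5
      have hfe : f = e := by
        by_contra h
        exact hE ⟨f, Finset.mem_erase.2 ⟨h, hf⟩⟩
      rw [hfe] at b5
      exact lt_irrefl _ b5

end RP.PkTOP
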